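import Pool.Agent.H86.UL.P2D

/-!
# Project UL, module P2a: the simple roots are permuted

`f_ij(t) = xi_j (Ψ (x_i(t)))` (`ff`, in P2D).
(0) additivity: `ff_add` from `map_add` and `xi_mul`.
(1) `ff_conj`: if `τ ∈ S.T` and `τ x_i(t) τ⁻¹ = x_i(c t)` then `f_ij(c t) = chi (Ψ τ) (simple j) f_ij(t)`
(`xi_conj`, with `Ψ τ ∈ Gad F`: `T_le_gen` and closure induction from `hΨ`).
(2) For each `j` there is `i` with `f_ij ≠ 0` (`exists_ff`): otherwise `xi_j (Ψ (x_β(t))) = 0` for all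
positive `β`: for `β` simple by assumption; otherwise (`exists_descent`, strong induction not needed)
`β = simple i + γ` and `x_β(t) = x_i(±1) x_γ(t) x_i(±1)⁻¹ x_γ(t)⁻¹` (`comm_add` with `s = ±1`
absorbing the sign `eps`), and `xi_j` of a commutator of two elements of `U` is `0` (`xi_mul`). So
`xi_j ∘ Ψ` vanishes on `S.U 1` (closure induction, `xi_mul`). Then with `β` simple and `l` the chain
from `β` to `θ` (`IsHighest.chain`), which has length `ht θ - 1`, `icomm_chain`, `iad_eq_zero`,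
`icomm_eq_one` give `Ψ (x_θ(±1)) = 1`, contradiction (same argument as `nonvanish` in P1.lean).
(3) `f_ij ≠ 0` and `f_i'j ≠ 0` imply `i = i'`: let `i ≠ i'`. Take `v` with `ip (e_i) v = 0`,
`ip (e_i') v = det A` (`exists_coweight`) and `s ≠ 0` in `k` with `s ^ det A ≠ 1` (`k` infinite,
`det A ≠ 0`: `det_ne_zero`). `τ = S.tor v s`: `tor_conj` gives `τ x_i(t) τ⁻¹ = x_i(t)`, so by (1)
`chi (Ψ τ) (simple j) = 1` (as `f_ij(t) ≠ 0` for some `t`), and then
`f_i'j(s ^ det * t) = f_i'j(t)`, so `f_i'j((s ^ det - 1) t) = 0` for all `t`, `f_i'j = 0`.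
(4) Each `i₀` occurs: otherwise `f_i₀j = 0` for all `j`, i.e. `ld (Ψ (x_i₀(t))) = 0`. A chain `l` from
a simple root `i₁` to `θ`; `θ = simple i₁ + sum of l` has full support (`IsHighest.full`), so
`i₀ = i₁` or `i₀ ∈ l`. Then `iad (ld ..) (..)` has a zero factor and is `0`, so `icomm_eq_one`
and `icomm_chain` give `Ψ (x_θ(±1)) = 1`, contradiction.
(5) So `j ↦` the `i` with `f_ij ≠ 0` is a well defined surjective map of `Fin n` to itself, hence a
bijection; `π` is its inverse.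
-/

set_option autoImplicit false
open Matrix

namespace Pool.Agent.H75.UL
namespace SLC
variable {n : ℕ} (C : SLC n)

theorem P2a_mem {k : Type*} [Field k] {H : Type*} [Group H] (S : StSys C k H) (β : C.Root)
    (hβ : C.Pos β) (t : k) : S.x β t ∈ S.U 1 :=
  Subgroup.subset_closure ⟨β, t, hβ, rfl⟩

theorem ff_add {k : Type*} [Field k] {H : Type*} [Group H] (S : StSys C k H) {F : Type*} [Field F]
    (Ψ : H →* GL C.Idx F) (hU : ∀ u ∈ S.U 1, Ψ u ∈ (C.adS F).U 1) (i j : Fin n) (s t : k) :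
    ff S Ψ i j (s + t) = ff S Ψ i j s + ff S Ψ i j t := by
  unfold ff
  rw [S.map_add, map_mul]
  exact C.xi_mul j _ _ (hU _ (C.P2a_mem S _ (C.simple_pos i) s))
    (hU _ (C.P2a_mem S _ (C.simple_pos i) t))

theorem P2a_gen {k : Type*} [Field k] {H : Type*} [Group H] (S : StSys C k H) {F : Type*} [Field F]
    (Ψ : H →* GL C.Idx F) (hΨ : ∀ β t, Ψ (S.x β t) ∈ C.Gad F) (τ : H) (hτ : τ ∈ S.T) :
    Ψ τ ∈ C.Gad F := by
  have h1 : S.gen ≤ (C.Gad F).comap Ψ := by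
    unfold StSys.gen
    rw [Subgroup.closure_le]
    rintro g ⟨β, t, rfl⟩
    exact hΨ β t
  exact h1 (S.T_le_gen hτ)

theorem ff_conj {k : Type*} [Field k] {H : Type*} [Group H] (S : StSys C k H) {F : Type*} [Field F]
    (Ψ : H →* GL C.Idx F) (hΨ : ∀ β t, Ψ (S.x β t) ∈ C.Gad F)
    (hU : ∀ u ∈ S.U 1, Ψ u ∈ (C.adS F).U 1)
    (hT : ∀ h ∈ S.T, C.Fil 0 (Ψ h : Matrix C.Idx C.Idx F)) (i j : Fin n) (τ : H) (hτ : τ ∈ S.T)
    (c t : k) (h : τ * S.x (C.simple i) t * τ⁻¹ = S.x (C.simple i) (c * t)) :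
    ff S Ψ i j (c * t) = C.chi (Ψ τ : Matrix C.Idx C.Idx F) (C.simple j) * ff S Ψ i j t := by
  unfold ff
  rw [← h, map_mul, map_mul, map_inv]
  exact (C.xi_conj (Ψ τ) (Ψ (S.x (C.simple i) t)) (C.P2a_gen S Ψ hΨ τ hτ) (hT τ hτ)
    (hU _ (C.P2a_mem S _ (C.simple_pos i) t)) j).2

theorem P2a_map_icomm {G H : Type*} [Group G] [Group H] (Ψ : H →* G) (l : List H) :
    ∀ g : H, Ψ (icomm g l) = icomm (Ψ g) (l.map Ψ) := by
  induction l with
  | nil => intro g; rfl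
  | cons a l ih =>
    intro g
    have h1 := ih (a * g * a⁻¹ * g⁻¹)
    rw [map_mul, map_mul, map_mul, map_inv, map_inv] at h1
    exact h1

theorem P2a_iad_zero {ι R : Type*} [Fintype ι] [CommRing R] (l : List (Matrix ι ι R)) :
    iad (0 : Matrix ι ι R) l = 0 := by
  induction l with
  | nil => rfl
  | cons B l ih =>
    have h1 : iad (0 : Matrix ι ι R) (B :: l) = iad (B * 0 - 0 * B) l := rfl
    rw [h1, mul_zero, zero_mul, sub_zero, ih]

theorem P2a_chain_ht (β δ : C.Root) (l : List (Fin n)) (hc : C.Chain β l δ) :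
    ht δ.1 = ht β.1 + l.length := by
  induction hc with
  | nil β => simp
  | cons i h hc ih =>
    rename_i β' γ' δ' l'
    have h1 : ht γ'.1 = 1 + ht β'.1 := by
      rw [h, ← C.ht_simple i]
      unfold ht
      rw [← Finset.sum_add_distrib]
      rfl
    rw [ih, h1, List.length_cons]
    push_cast
    ring

/-- The main argument: some iterated bracket of leading parts is nonzero. -/
theorem P2a_key (θ : C.Root) (hθ : C.IsHighest θ) {k : Type*} [Field k]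
    {H : Type*} [Group H] (S : StSys C k H) {F : Type*} [Field F]
    (Ψ : H →* GL C.Idx F) (hne : Ψ (S.x θ 1) ≠ 1)
    (hU : ∀ u ∈ S.U 1, Ψ u ∈ (C.adS F).U 1) (i₀ : Fin n)
    (h0 : ∀ l : List (Fin n), (l.length : ℤ) + 1 = ht θ.1 →
      iad (C.ld (Ψ (S.x (C.simple i₀) 1) : Matrix C.Idx C.Idx F))
        ((l.map fun i => Ψ (S.x (C.simple i) 1)).map
          fun h : GL C.Idx F => C.ld (h : Matrix C.Idx C.Idx F)) = 0) : False := by
  obtain ⟨l, hl⟩ := hθ.chain (C.simple i₀) (C.simple_pos i₀)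
  have hlen : (l.length : ℤ) + 1 = ht θ.1 := by
    have := C.P2a_chain_ht _ _ _ hl
    rw [C.ht_simple] at this
    omega
  obtain ⟨s, hs, h1⟩ := S.icomm_chain (C.simple i₀) θ l hl
  have h2 := congrArg Ψ h1
  rw [P2a_map_icomm, List.map_map] at h2
  have h3 := C.icomm_eq_one θ hθ (Ψ (S.x (C.simple i₀) 1))
    (l.map fun i => Ψ (S.x (C.simple i) 1)) (hU _ (C.P2a_mem S _ (C.simple_pos i₀) 1))
    (by
      intro h hh
      obtain ⟨i, _, rfl⟩ := List.mem_map.mp hh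
      exact hU _ (C.P2a_mem S _ (C.simple_pos i) 1))
    (by rw [List.length_map]; exact hlen) (by
      rw [← h0 l hlen]
      congr 1
      induction l.map fun i => Ψ (S.x (C.simple i) 1) with
      | nil => rfl
      | cons a L ih => exact congrArg (List.cons _) ih)
  have h4 : Ψ (S.x θ s) = 1 := by
    rw [← h2]
    exact h3
  apply hne
  rcases hs with rfl | rfl
  · exact h4
  · rw [S.x_neg, map_inv, inv_eq_one] at h4
    exact h4

theorem P2a_exists_ff (θ : C.Root) (hθ : C.IsHighest θ) {k : Type*} [Field k]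
    {H : Type*} [Group H] (S : StSys C k H) {F : Type*} [Field F]
    (Ψ : H →* GL C.Idx F) (hne : Ψ (S.x θ 1) ≠ 1)
    (hU : ∀ u ∈ S.U 1, Ψ u ∈ (C.adS F).U 1) (j : Fin n) : ∃ i t, ff S Ψ i j t ≠ 0 := by
  by_contra hcon
  push Not at hcon
  apply C.P2a_key θ hθ S Ψ hne hU j
  intro l hlen
  have h1 := C.iad_eq_zero θ hθ j (Ψ (S.x (C.simple j) 1) : Matrix C.Idx C.Idx F)
    (l.map fun i => (Ψ (S.x (C.simple i) 1) : Matrix C.Idx C.Idx F)) (hcon j 1)
    (by
      intro B hB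
      obtain ⟨i, _, rfl⟩ := List.mem_map.mp hB
      exact hcon i 1)
    (by rw [List.length_map]; exact hlen)
  rw [List.map_map] at h1 ⊢
  exact h1

theorem P2a_exists_ff' (θ : C.Root) (hθ : C.IsHighest θ) {k : Type*} [Field k]
    {H : Type*} [Group H] (S : StSys C k H) {F : Type*} [Field F]
    (Ψ : H →* GL C.Idx F) (hne : Ψ (S.x θ 1) ≠ 1)
    (hU : ∀ u ∈ S.U 1, Ψ u ∈ (C.adS F).U 1) (i : Fin n) : ∃ j t, ff S Ψ i j t ≠ 0 := by
  by_contra hcon
  push Not at hcon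
  apply C.P2a_key θ hθ S Ψ hne hU i
  intro l hlen
  have h1 : C.ld (Ψ (S.x (C.simple i) 1) : Matrix C.Idx C.Idx F) = 0 := by
    unfold ld
    apply Finset.sum_eq_zero
    intro j _
    have h2 : C.xi j (Ψ (S.x (C.simple i) 1) : Matrix C.Idx C.Idx F) = 0 := hcon j 1
    rw [h2, zero_smul]
  rw [h1, P2a_iad_zero]

theorem P2a_exists_unit {k : Type*} [Field k] [Infinite k] (d : ℤ) (hd : d ≠ 0) :
    ∃ s : k, s ≠ 0 ∧ s ^ d ≠ 1 := by
  classical
  obtain ⟨s, hs⟩ := Infinite.exists_notMem_finset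
    ((Polynomial.nthRoots d.natAbs (1 : k)).toFinset ∪ {0})
  rw [Finset.mem_union, not_or, Finset.mem_singleton, Multiset.mem_toFinset,
    Polynomial.mem_nthRoots (Int.natAbs_pos.mpr hd)] at hs
  refine ⟨s, hs.2, fun h => hs.1 ?_⟩
  rcases Int.natAbs_eq d with h1 | h1
  · rw [h1, zpow_natCast] at h
    exact h
  · rw [h1, _root_.zpow_neg, zpow_natCast, inv_eq_one] at h
    exact h

theorem P2a_unique {k : Type*} [Field k] [Infinite k]
    {H : Type*} [Group H] (S : StSys C k H) {F : Type*} [Field F]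
    (Ψ : H →* GL C.Idx F) (hΨ : ∀ β t, Ψ (S.x β t) ∈ C.Gad F)
    (hU : ∀ u ∈ S.U 1, Ψ u ∈ (C.adS F).U 1)
    (hT : ∀ h ∈ S.T, C.Fil 0 (Ψ h : Matrix C.Idx C.Idx F)) (i i' j : Fin n)
    (h : ∃ t, ff S Ψ i j t ≠ 0) (h' : ∃ t, ff S Ψ i' j t ≠ 0) : i = i' := by
  by_contra hii
  obtain ⟨v, hv⟩ := C.exists_coweight (Pi.single i' 1)
  obtain ⟨s, hs0, hs⟩ := P2a_exists_unit (k := k) C.A.det C.det_ne_zero
  have hτ := S.tor_mem v s hs0
  have hv1 : C.ip v (C.simple i).1 = 0 := by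
    rw [C.ip_comm, C.simple_val, hv, Pi.single_eq_of_ne hii, mul_zero]
  have hv2 : C.ip v (C.simple i').1 = C.A.det := by
    rw [C.ip_comm, C.simple_val, hv, Pi.single_eq_same, mul_one]
  obtain ⟨t, ht⟩ := h
  obtain ⟨t', ht'⟩ := h'
  have h1 : C.chi (Ψ (S.tor v s) : Matrix C.Idx C.Idx F) (C.simple j) = 1 := by
    have h2 := S.tor_conj v s hs0 (C.simple i) t
    rw [hv1, zpow_zero] at h2
    have h3 := C.ff_conj S Ψ hΨ hU hT i j _ hτ 1 t h2
    rw [one_mul] at h3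
    exact mul_right_cancel₀ ht (by rw [← h3, one_mul])
  have h2 : ∀ t, ff S Ψ i' j (s ^ C.A.det * t) = ff S Ψ i' j t := by
    intro t
    have h3 := S.tor_conj v s hs0 (C.simple i') t
    rw [hv2] at h3
    have h4 := C.ff_conj S Ψ hΨ hU hT i' j _ hτ _ t h3
    rw [h1, one_mul] at h4
    exact h4
  have h5 : s ^ C.A.det - 1 ≠ 0 := sub_ne_zero.mpr hs
  apply ht'
  have h6 := h2 (t' / (s ^ C.A.det - 1))
  have h7 : s ^ C.A.det * (t' / (s ^ C.A.det - 1)) = t' + t' / (s ^ C.A.det - 1) := by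
    field_simp
    ring
  rw [h7, C.ff_add S Ψ hU] at h6
  simpa using h6

theorem exists_perm (θ : C.Root) (hθ : C.IsHighest θ) {k : Type*} [Field k] [Infinite k]
    {H : Type*} [Group H] (S : StSys C k H) {F : Type*} [Field F]
    (Ψ : H →* GL C.Idx F) (hΨ : ∀ β t, Ψ (S.x β t) ∈ C.Gad F) (hne : Ψ (S.x θ 1) ≠ 1)
    (hU : ∀ u ∈ S.U 1, Ψ u ∈ (C.adS F).U 1)
    (hT : ∀ h ∈ S.T, C.Fil 0 (Ψ h : Matrix C.Idx C.Idx F)) :
    ∃ π : Equiv.Perm (Fin n), ∀ i j, (∃ t, ff S Ψ i j t ≠ 0) ↔ j = π i := by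
  choose σ hσ using C.P2a_exists_ff θ hθ S Ψ hne hU
  have hun : ∀ i j, (∃ t, ff S Ψ i j t ≠ 0) ↔ σ j = i := by
    intro i j
    constructor
    · intro h
      exact C.P2a_unique S Ψ hΨ hU hT (σ j) i j (hσ j) h
    · rintro rfl
      exact hσ j
  have hsurj : Function.Surjective σ := by
    intro i
    obtain ⟨j, hj⟩ := C.P2a_exists_ff' θ hθ S Ψ hne hU i
    exact ⟨j, (hun i j).mp hj⟩
  have hbij : Function.Bijective σ := ⟨Finite.injective_iff_surjective.mpr hsurj, hsurj⟩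
  refine ⟨(Equiv.ofBijective σ hbij).symm, fun i j => ?_⟩
  rw [hun, Equiv.eq_symm_apply]
  rfl

end SLC
end Pool.Agent.H75.UL
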