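import Pool.Agent.H86.UL.K1
import Pool.Agent.H62.CA.FixedVec

/-!
# Project UL, module K2: the images of the elements of `U` are unipotent

Proof. `V = C.Idx → L`, `a (β, t) = (ρ (x_β(t))).mulVecLin` for positive roots `β` (index type
`ι = {β // C.Pos β} × k`), `ht (β, t) = (ht β).toNat`. They are unipotent by `root_unipotent` (`ρ`
composed with `Matrix.toLin'`, `GL → End`). `hbr` of
`H62.CA.FixedVec`: for positive `β, γ`: if `ip β γ ≥ 0` they commute (`S.comm`), if `ip β γ = -1` then
`δ = β + γ` is a root, `S.comm_add` gives `x β s * x γ t = x δ (..) * (x γ t * x β s)`, and the height of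
`δ` is larger; `ip β γ = -2` means `γ = -β`, impossible for positive roots.
By `Pool.Agent.H62.CA.span_sub_ne` on every nonzero invariant subspace `W` the span of all
`a x w - w`, `w ∈ W`, is not `W` (it is contained in `W`, and invariant). Define `W 0 = ⊤`,
`W (j+1) = span {a x w - w | x, w ∈ W j}`: a decreasing chain of invariant subspaces, strictly
decreasing as long as it is nonzero, so `W N = ⊥` with `N = finrank V`. For `u ∈ S.U 1`, which is
generated by the `x_β(t)` with `1 ≤ ht β` (closure induction; an inverse `x_β(t)⁻¹` is `x_β(-t)`;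
products: `g h w - w = g (h w - w) + (g w - w)`, and `g` preserves `W (j+1)`): `ρ u w - w ∈ W (j+1)`
for all `w ∈ W j`. Hence `(ρ u - 1) ^ N = 0`.
-/

set_option autoImplicit false
open Matrix

namespace Pool.Agent.H75.UL
/-- the chain of subspaces -/
private noncomputable def K2_W {L V ι : Type*} [Field L] [AddCommGroup V] [Module L V]
    (a : ι → V →ₗ[L] V) : ℕ → Submodule L V
  | 0 => ⊤
  | j + 1 => Submodule.span L {v : V | ∃ x, ∃ w ∈ K2_W a j, v = a x w - w}

private theorem K2_mem {L V ι : Type*} [Field L] [AddCommGroup V] [Module L V]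
    (a : ι → V →ₗ[L] V) (j : ℕ) (x : ι) (w : V) (hw : w ∈ K2_W a j) :
    a x w - w ∈ K2_W a (j + 1) :=
  Submodule.subset_span ⟨x, w, hw, rfl⟩

private theorem K2_inv {L V ι : Type*} [Field L] [AddCommGroup V] [Module L V]
    (a : ι → V →ₗ[L] V) (j : ℕ) :
    (∀ x, ∀ w ∈ K2_W a j, a x w ∈ K2_W a j) ∧ K2_W a (j + 1) ≤ K2_W a j := by
  induction j with
  | zero => exact ⟨fun _ _ _ => trivial, fun _ _ => trivial⟩
  | succ j ih =>
    obtain ⟨_, h2⟩ := ih
    have h3 : ∀ x, ∀ w ∈ K2_W a (j + 1), a x w ∈ K2_W a (j + 1) := by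
      intro x w hw
      have h4 := K2_mem a j x w (h2 hw)
      have h5 := (K2_W a (j + 1)).add_mem h4 hw
      rwa [sub_add_cancel] at h5
    refine ⟨h3, ?_⟩
    refine Submodule.span_le.2 ?_
    rintro v ⟨x, w, hw, rfl⟩
    exact (K2_W a (j + 1)).sub_mem (h3 x w hw) hw

private theorem K2_exists_bot {L V ι : Type*} [Field L] [AddCommGroup V] [Module L V]
    [FiniteDimensional L V] (a : ι → V →ₗ[L] V)
    (h : ∀ j, K2_W a j ≠ ⊥ → K2_W a (j + 1) ≠ K2_W a j) : ∃ j, K2_W a j = ⊥ := by
  by_contra hc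
  push Not at hc
  have h1 : ∀ j, Module.finrank L (K2_W a j) + j ≤ Module.finrank L V := by
    intro j
    induction j with
    | zero => simpa using Submodule.finrank_le (K2_W a 0)
    | succ j ih =>
      have h2 : K2_W a (j + 1) < K2_W a j := lt_of_le_of_ne (K2_inv a j).2 (h j (hc j))
      have h3 := Submodule.finrank_lt_finrank_of_lt h2
      omega
  have h2 := h1 (Module.finrank L V + 1)
  omega

theorem K2_abs {n : ℕ} {C : SLC n} {k : Type*} [Field k] [Infinite k] {H : Type*} [Group H]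
    (S : StSys C k H) {L V : Type*} [Field L] [IsAlgClosed L] [AddCommGroup V] [Module L V]
    [FiniteDimensional L V] (ρ : H →* Module.End L V) (u : H) (hu : u ∈ S.U 1) :
    IsNilpotent (ρ u - 1) := by
  classical
  let ι : Type _ := {β : C.Root // C.Pos β} × k
  let a : ι → V →ₗ[L] V := fun x => ρ (S.x x.1.1 x.2)
  let b : ι → V →ₗ[L] V := fun x => ρ (S.x x.1.1 x.2)⁻¹
  have hab : ∀ x, a x * b x = 1 := by
    intro x
    show ρ (S.x x.1.1 x.2) * ρ (S.x x.1.1 x.2)⁻¹ = 1
    rw [← map_mul, mul_inv_cancel, map_one]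
  have hnil : ∀ x, IsNilpotent (a x - 1) := fun x => root_unipotent S ρ x.1.1 x.2
  let hgt : ι → ℕ := fun x => (ht x.1.1.1).toNat
  have hN : ∀ x, hgt x ≤ Finset.univ.sup (fun β : C.Root => (ht β.1).toNat) := fun x =>
    Finset.le_sup (f := fun β : C.Root => (ht β.1).toNat) (Finset.mem_univ x.1.1)
  have hbr : ∀ x y, a x * a y = a y * a x ∨
      ∃ z, hgt x < hgt z ∧ hgt y < hgt z ∧ a x * a y = a z * (a y * a x) := by
    intro x y
    have px : 0 < ht x.1.1.1 := x.1.2
    have py : 0 < ht y.1.1.1 := y.1.2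
    rcases lt_or_ge (C.ip x.1.1.1 y.1.1.1) 0 with h | h
    · right
      have h2 := C.neg_two_le_ip x.1.1 y.1.1
      have h3 : C.ip x.1.1.1 y.1.1.1 ≠ -2 := by
        intro h4
        rw [C.ip_eq_neg_two_iff] at h4
        have h5 : ht y.1.1.1 = - ht x.1.1.1 := by
          rw [h4]
          unfold ht
          simp
        omega
      have h4 : C.ip x.1.1.1 y.1.1.1 = -1 := by omega
      obtain ⟨δ, hδ⟩ := C.exists_add x.1.1 y.1.1 h4
      have h5 : ht δ.1 = ht x.1.1.1 + ht y.1.1.1 := by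
        rw [hδ]
        unfold ht
        simp [Finset.sum_add_distrib]
      have h6 : C.Pos δ := by
        show 0 < ht δ.1
        omega
      refine ⟨(⟨δ, h6⟩, C.eps x.1.1.1 y.1.1.1 * x.2 * y.2), ?_, ?_, ?_⟩
      · show (ht x.1.1.1).toNat < (ht δ.1).toNat
        omega
      · show (ht y.1.1.1).toNat < (ht δ.1).toNat
        omega
      · have h7 := S.comm_add x.1.1 y.1.1 δ x.2 y.2 hδ
        rw [mul_inv_eq_iff_eq_mul, mul_inv_eq_iff_eq_mul, mul_assoc] at h7
        show ρ (S.x x.1.1 x.2) * ρ (S.x y.1.1 y.2) =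
          ρ (S.x δ (C.eps x.1.1.1 y.1.1.1 * x.2 * y.2)) * (ρ (S.x y.1.1 y.2) * ρ (S.x x.1.1 x.2))
        rw [← map_mul, ← map_mul, ← map_mul, h7]
    · left
      show ρ (S.x x.1.1 x.2) * ρ (S.x y.1.1 y.2) = ρ (S.x y.1.1 y.2) * ρ (S.x x.1.1 x.2)
      rw [← map_mul, ← map_mul, S.comm _ _ _ _ h]
  obtain ⟨N, hbot⟩ := K2_exists_bot a (fun j hj =>
    Pool.Agent.H62.CA.span_sub_ne a b hab hnil hgt _ hN hbr (K2_W a j) hj (K2_inv a j).1)
  -- the elements of `U` act trivially on the quotients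
  have hle := fun j => (K2_inv a j).2
  have key : ∀ g ∈ S.U 1, ∀ j, ∀ w ∈ K2_W a j,
      ρ g w - w ∈ K2_W a (j + 1) ∧ ρ g⁻¹ w - w ∈ K2_W a (j + 1) := by
    intro g hg
    unfold StSys.U at hg
    induction hg using Subgroup.closure_induction with
    | mem g hg =>
      obtain ⟨β, t, h1, rfl⟩ := hg
      have hpos : C.Pos β := by
        show 0 < ht β.1
        omega
      intro j w hw
      refine ⟨K2_mem a j (⟨β, hpos⟩, t) w hw, ?_⟩
      rw [← S.x_neg β t]
      exact K2_mem a j (⟨β, hpos⟩, -t) w hw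
    | one =>
      intro j w hw
      rw [inv_one, map_one, Module.End.one_apply, sub_self]
      exact ⟨Submodule.zero_mem _, Submodule.zero_mem _⟩
    | mul g h _ _ ig ih =>
      intro j w hw
      have aux : ∀ g h : H, (∀ w ∈ K2_W a j, ρ g w - w ∈ K2_W a (j + 1)) →
          (∀ w ∈ K2_W a j, ρ h w - w ∈ K2_W a (j + 1)) → ρ (g * h) w - w ∈ K2_W a (j + 1) := by
        intro g h hg hh
        have h1 := hh w hw
        have h2 : ρ h w ∈ K2_W a j := by
          have h3 := (K2_W a j).add_mem (hle j h1) hw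
          rwa [sub_add_cancel] at h3
        have h3 := hg _ h2
        have h4 := (K2_W a (j + 1)).add_mem h3 h1
        rw [sub_add_sub_cancel] at h4
        rw [map_mul, Module.End.mul_apply]
        exact h4
      refine ⟨aux g h (fun w hw => (ig j w hw).1) (fun w hw => (ih j w hw).1), ?_⟩
      rw [_root_.mul_inv_rev]
      exact aux h⁻¹ g⁻¹ (fun w hw => (ih j w hw).2) (fun w hw => (ig j w hw).2)
    | inv g _ ig =>
      intro j w hw
      rw [inv_inv]
      exact ⟨(ig j w hw).2, (ig j w hw).1⟩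
  have hpow : ∀ j, ∀ w : V, ((ρ u - 1 : Module.End L V) ^ j) w ∈ K2_W a j := by
    intro j
    induction j with
    | zero => intro w; trivial
    | succ j ih =>
      intro w
      rw [pow_succ', Module.End.mul_apply, LinearMap.sub_apply, Module.End.one_apply]
      exact (key u hu j _ (ih w)).1
  refine ⟨N, ?_⟩
  apply LinearMap.ext
  intro w
  have h1 := hpow N w
  rw [hbot, Submodule.mem_bot] at h1
  rw [h1]
  rfl

namespace SLC
variable {n : ℕ} (C : SLC n)

theorem unipotent_image' {k : Type*} [Field k] [Infinite k] {H : Type*} [Group H]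
    (S : StSys C k H) (L : Type*) [Field L] [IsAlgClosed L] (ρ : H →* GL C.Idx L) (u : H)
    (hu : u ∈ S.U 1) : IsNilpotent ((ρ u : Matrix C.Idx C.Idx L) - 1) := by
  classical
  let e : Matrix C.Idx C.Idx L ≃ₐ[L] Module.End L (C.Idx → L) := Matrix.toLinAlgEquiv'
  let ρ' : H →* Module.End L (C.Idx → L) :=
    (e : Matrix C.Idx C.Idx L →* Module.End L (C.Idx → L)).comp ((Units.coeHom _).comp ρ)
  have h1 : IsNilpotent (ρ' u - 1) := K2_abs S ρ' u hu
  have h2 : e ((ρ u : Matrix C.Idx C.Idx L) - 1) = ρ' u - 1 := by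
    rw [map_sub, map_one]
    rfl
  rw [← h2] at h1
  have h3 := h1.map e.symm
  rwa [AlgEquiv.symm_apply_apply] at h3

end SLC
end Pool.Agent.H75.UL
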