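import Pool.Agent.H86.UL.F2
import Pool.Agent.H86.UL.K2
import Pool.Agent.H75.UL.T4
import Pool.Agent.H75.UL.T5
import Pool.Agent.H75.UL.S8
import Pool.Agent.H75.UL.R3

/-!
# Project UL, module P1: the fixed chamber is unique

`nonvanish` (also used in P2): if `Ψ (x_θ(1)) ≠ 1` and `Ψ` maps `U` to `U` then for each simple root
`j` some `u ∈ S.U 1` has `xi_j (Ψ u) ≠ 0`.
Proof: otherwise `xi_j = 0` on all `Ψ u`. By `IsHighest.chain` (applied to a simple root `β`, which
exists as `θ` has full support and `0 < n`; if `n = 0` there is no `j`) there is a chain `l` from `β`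
to `θ`, of length `ht θ - 1` (each step adds 1 to the height), and by `icomm_chain`
`icomm (x_β 1) (l.map ..) = x_θ(± 1)`. Apply `Ψ` (`icomm` commutes with homomorphisms):
`icomm (Ψ x_β(1)) (..) = Ψ (x_θ(±1)) ≠ 1`. But `iad_eq_zero` and `icomm_eq_one` say it is `1`.

`unique_chamber'`. Existence: `Γ := (S.U 1).map Ψ ≤ Gad L` consists of unipotents
(`unipotent_image`), so `fixed_chamber` gives `g ∈ Gad L` with `Fil 0 (g⁻¹ γ g)` for all `γ ∈ Γ`. By
`upper` `g⁻¹ γ g = τ u` with `τ ∈ T`, `u ∈ U`. `τ` is diagonal (`T_diag`), with entries `1` on the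
indices `inl i`. `M = g⁻¹ γ g - 1` is nilpotent; `M` satisfies `M a b = 0` if `hti a < hti b` and also if
`hti a = hti b`, `a ≠ b` (as `Fil 1 (u - 1)` by `Fil_U`), and so do its powers, with
`(M ^ k) a a = (M a a) ^ k`; so `M a a = 0`, i.e. all diagonal entries of `τ` are `1`, `τ = 1`, and
`g⁻¹ γ g = u ∈ U`.
Uniqueness: let `g'` be as in the statement, `y = g⁻¹ g' ∈ Gad L`; `bruhat` (with `gen_adS`):
`y = u₀ ν v`; `N_acts`: `Acts ν w`. If `w = 1` then `ν ∈ T`, so `y` is `Fil 0` (`Fil_U`, `Fil_mono`,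
`Fil_mul`, `T_diag`). If `w ≠ 1`, then by `eq_one_of_pos` (for `w⁻¹`) there is `j` with
`¬ Pos (w⁻¹ (simple j))`. For each `u ∈ S.U 1`: `γ' = g⁻¹ Ψ(u) g ∈ U`, `y⁻¹ γ' y` is `Fil 0`, and
conjugating with `v` also `ν⁻¹ (u₀⁻¹ γ' u₀) ν` is `Fil 0`, so `xi_eq_zero` gives
`xi_j (u₀⁻¹ γ' u₀) = 0`, and by `xi_mul` `xi_j (γ') = 0`. This contradicts `nonvanish` applied to
the homomorphism `h ↦ g⁻¹ * Ψ h * g`.
-/

set_option autoImplicit false
open Matrix

namespace Pool.Agent.H75.UL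
namespace SLC
variable {n : ℕ} (C : SLC n)

theorem P1_ht_add (v w : Fin n → ℤ) : ht (v + w) = ht v + ht w := by
  simp [ht, Finset.sum_add_distrib]

theorem P1_chain_len {β δ : C.Root} {l : List (Fin n)} (hc : C.Chain β l δ) :
    (l.length : ℤ) + ht β.1 = ht δ.1 := by
  induction hc with
  | nil β => simp
  | cons i h hc ih =>
    rename_i β γ δ l
    rw [h, P1_ht_add] at ih
    have h1 := C.ht_simple i
    rw [h1] at ih
    simp only [List.length_cons, Nat.cast_add, Nat.cast_one]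
    linarith

theorem P1_icomm_map {H G : Type*} [Group H] [Group G] (f : H →* G) (l : List H) (g : H) :
    f (icomm g l) = icomm (f g) (l.map f) := by
  induction l generalizing g with
  | nil => rfl
  | cons a l ih =>
    have h1 : icomm g (a :: l) = icomm (a * g * a⁻¹ * g⁻¹) l := rfl
    have h2 : icomm (f g) ((a :: l).map f) =
        icomm (f a * f g * (f a)⁻¹ * (f g)⁻¹) (l.map f) := rfl
    rw [h1, h2, ih]
    simp only [map_mul, map_inv]

theorem P1_x_mem {k : Type*} [Field k] {H : Type*} [Group H] (S : StSys C k H) (i : Fin n)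
    (t : k) : S.x (C.simple i) t ∈ S.U 1 :=
  Subgroup.subset_closure ⟨C.simple i, t, (C.ht_simple i).ge, rfl⟩

theorem P1_Fil_zero_of_U {L : Type*} [Field L] {u : GL C.Idx L} (hu : u ∈ (C.adS L).U 1) :
    C.Fil 0 (u : Matrix C.Idx C.Idx L) := by
  have h1 := C.Fil_mono (by norm_num : (0 : ℤ) ≤ 1) (C.Fil_U 1 le_rfl u hu)
  have h2 := C.Fil_add h1 C.Fil_one
  rwa [sub_add_cancel] at h2

/-- Matrices vanishing off the diagonal at and above the level. -/
def P1_Q {L : Type*} [Field L] (M : Matrix C.Idx C.Idx L) : Prop :=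
  ∀ a b, a ≠ b → C.hti a < C.hti b + 1 → M a b = 0

theorem P1_Q_mul {L : Type*} [Field L] {M N : Matrix C.Idx C.Idx L} (hM : C.P1_Q M)
    (hN : C.P1_Q N) : C.P1_Q (M * N) ∧ ∀ a, (M * N) a a = M a a * N a a := by
  constructor
  · intro a b hab h
    rw [Matrix.mul_apply]
    apply Finset.sum_eq_zero
    intro c _
    by_cases hca : a = c
    · subst hca
      rw [hN a b hab h, mul_zero]
    · by_cases hac : C.hti a < C.hti c + 1
      · rw [hM a c hca hac, zero_mul]
      · have hcb : c ≠ b := by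
          rintro rfl
          exact hac h
        rw [hN c b hcb (by omega), mul_zero]
  · intro a
    rw [Matrix.mul_apply, Finset.sum_eq_single a]
    · intro c _ hca
      by_cases hac : C.hti a < C.hti c + 1
      · rw [hM a c (Ne.symm hca) hac, zero_mul]
      · rw [hN c a hca (by omega), mul_zero]
    · intro h
      exact absurd (Finset.mem_univ a) h

theorem P1_Q_pow {L : Type*} [Field L] {M : Matrix C.Idx C.Idx L} (hM : C.P1_Q M) (k : ℕ) :
    C.P1_Q (M ^ k) ∧ ∀ a, (M ^ k) a a = (M a a) ^ k := by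
  induction k with
  | zero =>
    constructor
    · intro a b hab _
      rw [pow_zero, Matrix.one_apply_ne hab]
    · intro a
      rw [pow_zero, pow_zero, Matrix.one_apply_eq]
  | succ k ih =>
    obtain ⟨h1, h2⟩ := C.P1_Q_mul ih.1 hM
    refine ⟨by rw [pow_succ]; exact h1, fun a => ?_⟩
    rw [pow_succ, h2, ih.2, pow_succ]

theorem P1_upper {L : Type*} [Field L] (m : GL C.Idx L) (hm : m ∈ C.Gad L)
    (h0 : C.Fil 0 (m : Matrix C.Idx C.Idx L))
    (hn : IsNilpotent ((m : Matrix C.Idx C.Idx L) - 1)) : m ∈ (C.adS L).U 1 := by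
  classical
  obtain ⟨τ, hτ, u, hu, rfl⟩ := C.upper m hm h0
  obtain ⟨c, hc⟩ := C.T_diag τ hτ
  set d : C.Idx → L := Sum.elim (fun _ => 1) (fun γ => ((∏ j, c j ^ γ.1 j : Lˣ) : L)) with hd
  have hF := C.Fil_U 1 le_rfl u hu
  have hent : ∀ a b, ((τ * u : GL C.Idx L) : Matrix C.Idx C.Idx L) a b =
      d a * (u : Matrix C.Idx C.Idx L) a b := by
    intro a b
    rw [Units.val_mul, hc, Matrix.diagonal_mul]
  have hu1 : ∀ a b, a ≠ b → C.hti a < C.hti b + 1 → (u : Matrix C.Idx C.Idx L) a b = 0 := by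
    intro a b hab h
    have h1 := hF a b h
    rw [Matrix.sub_apply, Matrix.one_apply_ne hab, sub_zero] at h1
    exact h1
  have hu2 : ∀ a, (u : Matrix C.Idx C.Idx L) a a = 1 := by
    intro a
    have h1 := hF a a (by omega)
    rw [Matrix.sub_apply, Matrix.one_apply_eq] at h1
    exact sub_eq_zero.mp h1
  have hQ : C.P1_Q (((τ * u : GL C.Idx L) : Matrix C.Idx C.Idx L) - 1) := by
    intro a b hab h
    rw [Matrix.sub_apply, Matrix.one_apply_ne hab, hent, hu1 a b hab h, mul_zero, sub_zero]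
  obtain ⟨k, hk⟩ := hn
  have hd1 : ∀ a, d a = 1 := by
    intro a
    have h1 := (C.P1_Q_pow hQ k).2 a
    rw [hk, Matrix.zero_apply] at h1
    have h3 : (((τ * u : GL C.Idx L) : Matrix C.Idx C.Idx L) - 1) a a = 0 :=
      eq_zero_of_pow_eq_zero h1.symm
    rw [Matrix.sub_apply, Matrix.one_apply_eq, hent, hu2, mul_one] at h3
    exact sub_eq_zero.mp h3
  have hτ1 : τ = 1 := by
    apply Units.ext
    rw [hc, Units.val_one]
    have : d = fun _ => 1 := funext hd1
    rw [this, Matrix.diagonal_one]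
  rw [hτ1, one_mul]
  exact hu

theorem nonvanish (θ : C.Root) (hθ : C.IsHighest θ) {k : Type*} [Field k]
    {H : Type*} [Group H] (S : StSys C k H) (F : Type*) [Field F]
    (Ψ : H →* GL C.Idx F) (hne : Ψ (S.x θ 1) ≠ 1)
    (hU : ∀ u ∈ S.U 1, Ψ u ∈ (C.adS F).U 1) (j : Fin n) :
    ∃ u ∈ S.U 1, C.xi j (Ψ u : Matrix C.Idx C.Idx F) ≠ 0 := by
  by_contra hcon
  have hz : ∀ u ∈ S.U 1, C.xi j (Ψ u : Matrix C.Idx C.Idx F) = 0 := by
    intro u hu
    by_contra h
    exact hcon ⟨u, hu, h⟩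
  obtain ⟨l, hc⟩ := hθ.chain (C.simple j) (C.simple_pos j)
  have hlen := C.P1_chain_len hc
  rw [C.ht_simple j] at hlen
  obtain ⟨s, hs, heq⟩ := S.icomm_chain (C.simple j) θ l hc
  have h1 : icomm (Ψ (S.x (C.simple j) 1)) ((l.map fun i => S.x (C.simple i) 1).map Ψ) = 1 := by
    apply C.icomm_eq_one θ hθ
    · exact hU _ (C.P1_x_mem S j 1)
    · intro h hh
      rw [List.mem_map] at hh
      obtain ⟨a, ha, rfl⟩ := hh
      rw [List.mem_map] at ha
      obtain ⟨i, _, rfl⟩ := ha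
      exact hU _ (C.P1_x_mem S i 1)
    · rw [List.length_map, List.length_map]
      exact hlen
    · have h2 := C.iad_eq_zero θ hθ j (Ψ (S.x (C.simple j) 1) : Matrix C.Idx C.Idx F)
        (((l.map fun i => S.x (C.simple i) 1).map Ψ).map
          (fun h : GL C.Idx F => (h : Matrix C.Idx C.Idx F)))
        (hz _ (C.P1_x_mem S j 1))
        (by
          intro B hB
          rw [List.mem_map] at hB
          obtain ⟨h, hh, rfl⟩ := hB
          rw [List.mem_map] at hh
          obtain ⟨a, ha, rfl⟩ := hh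
          rw [List.mem_map] at ha
          obtain ⟨i, _, rfl⟩ := ha
          exact hz _ (C.P1_x_mem S i 1))
        (by
          rw [List.length_map, List.length_map, List.length_map]
          exact hlen)
      have h3 : ∀ l' : List (GL C.Idx F),
          (l' >>= fun a => pure (a : Matrix C.Idx C.Idx F)) =
            l'.map (fun h : GL C.Idx F => (h : Matrix C.Idx C.Idx F)) := by
        intro l'
        simp [List.map_eq_flatMap]
      rw [← h3] at h2
      exact h2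
  rw [← P1_icomm_map, heq] at h1
  rcases hs with rfl | rfl
  · exact hne h1
  · rw [S.x_neg, map_inv, inv_eq_one] at h1
    exact hne h1

theorem unique_chamber' (θ : C.Root) (hθ : C.IsHighest θ) {k : Type*} [Field k] [Infinite k]
    {H : Type*} [Group H] (S : StSys C k H) (L : Type*) [Field L] [IsAlgClosed L]
    (Ψ : H →* GL C.Idx L) (hΨ : ∀ β t, Ψ (S.x β t) ∈ C.Gad L) (hne : Ψ (S.x θ 1) ≠ 1) :
    ∃ g ∈ C.Gad L, (∀ u ∈ S.U 1, g⁻¹ * Ψ u * g ∈ (C.adS L).U 1) ∧
      ∀ g' ∈ C.Gad L, (∀ u ∈ S.U 1,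
        C.Fil 0 ((g'⁻¹ * Ψ u * g' : GL C.Idx L) : Matrix C.Idx C.Idx L)) →
        C.Fil 0 ((g⁻¹ * g' : GL C.Idx L) : Matrix C.Idx C.Idx L) := by
  classical
  have hGen : ∀ u ∈ S.U 1, Ψ u ∈ C.Gad L := by
    intro u hu
    have h1 : S.U 1 ≤ (C.Gad L).comap Ψ := by
      unfold StSys.U
      rw [Subgroup.closure_le]
      rintro x ⟨β, t, _, rfl⟩
      exact hΨ β t
    exact h1 hu
  obtain ⟨g, hg, hfix⟩ := C.fixed_chamber L ((S.U 1).map Ψ)
    (by
      rintro x ⟨u, hu, rfl⟩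
      exact hGen u hu)
    (by
      rintro x ⟨u, hu, rfl⟩
      exact C.unipotent_image' S L Ψ u hu)
  have hUmem : ∀ u ∈ S.U 1, g⁻¹ * Ψ u * g ∈ (C.adS L).U 1 := by
    intro u hu
    apply C.P1_upper
    · exact mul_mem (mul_mem (inv_mem hg) (hGen u hu)) hg
    · exact hfix (Ψ u) ⟨u, hu, rfl⟩
    · have h1 := C.unipotent_image' S L Ψ u hu
      obtain ⟨k, hk⟩ := h1
      refine ⟨k, ?_⟩
      have h2 : ((g⁻¹ * Ψ u * g : GL C.Idx L) : Matrix C.Idx C.Idx L) - 1 =
          ((g⁻¹ : GL C.Idx L) : Matrix C.Idx C.Idx L) * ((Ψ u : Matrix C.Idx C.Idx L) - 1) *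
            (g : Matrix C.Idx C.Idx L) := by
        rw [mul_sub, mul_one, sub_mul, Units.val_mul, Units.val_mul, ← Units.val_mul g⁻¹ g,
          inv_mul_cancel, Units.val_one]
      have h3 : ∀ k : ℕ, (((g⁻¹ : GL C.Idx L) : Matrix C.Idx C.Idx L) *
          ((Ψ u : Matrix C.Idx C.Idx L) - 1) * (g : Matrix C.Idx C.Idx L)) ^ k =
          ((g⁻¹ : GL C.Idx L) : Matrix C.Idx C.Idx L) *
            ((Ψ u : Matrix C.Idx C.Idx L) - 1) ^ k * (g : Matrix C.Idx C.Idx L) := by
        intro k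
        induction k with
        | zero =>
          rw [pow_zero, pow_zero, mul_one, ← Units.val_mul, inv_mul_cancel, Units.val_one]
        | succ k ih =>
          rw [pow_succ, ih, pow_succ]
          simp only [mul_assoc]
          rw [← mul_assoc (g : Matrix C.Idx C.Idx L) ((g⁻¹ : GL C.Idx L) : Matrix C.Idx C.Idx L),
            ← Units.val_mul, mul_inv_cancel, Units.val_one, one_mul]
      rw [h2, h3, hk, mul_zero, zero_mul]
  refine ⟨g, hg, hUmem, ?_⟩
  intro g' hg' hfix'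
  have hy : g⁻¹ * g' ∈ (C.adS L).gen := by
    rw [C.gen_adS]
    exact mul_mem (inv_mem hg) hg'
  obtain ⟨u₀, hu₀, ν, hν, v, hv, hyeq⟩ := (C.adS L).bruhat (g⁻¹ * g') hy
  obtain ⟨w, hw, hacts, hw1⟩ := (C.adS L).N_acts ν hν
  by_cases hw' : w = 1
  · obtain ⟨c, hc⟩ := C.T_diag ν (hw1 hw')
    have hνF : C.Fil 0 (ν : Matrix C.Idx C.Idx L) := by
      intro a b hab
      rw [hc]
      apply Matrix.diagonal_apply_ne
      rintro rfl
      omega
    have h1 := C.Fil_mul (C.Fil_mul (C.P1_Fil_zero_of_U hu₀) hνF) (C.P1_Fil_zero_of_U hv)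
    rw [hyeq, Units.val_mul, Units.val_mul]
    simpa using h1
  · exfalso
    have hj : ∃ j, ¬ C.Pos (w⁻¹ (C.simple j)) := by
      by_contra hcon
      apply hw'
      have h1 := C.eq_one_of_pos w⁻¹ (inv_mem hw) (by
        intro i
        by_contra h
        exact hcon ⟨i, h⟩)
      rwa [inv_eq_one] at h1
    obtain ⟨j, hj⟩ := hj
    have hconj : ∀ h, ((MulAut.conj g⁻¹).toMonoidHom.comp Ψ) h = g⁻¹ * Ψ h * g := by
      intro h
      simp
    obtain ⟨u, hu, hxi⟩ := C.nonvanish θ hθ S L ((MulAut.conj g⁻¹).toMonoidHom.comp Ψ)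
      (by
        rw [hconj]
        intro h
        apply hne
        have h2 : Ψ (S.x θ 1) = g * (g⁻¹ * Ψ (S.x θ 1) * g) * g⁻¹ := by group
        rw [h2, h, mul_one, mul_inv_cancel])
      (by
        intro u hu
        rw [hconj]
        exact hUmem u hu) j
    rw [hconj] at hxi
    apply hxi
    have hγ := hUmem u hu
    have hx : u₀⁻¹ * (g⁻¹ * Ψ u * g) * u₀ ∈ (C.adS L).U 1 :=
      mul_mem (mul_mem (inv_mem hu₀) hγ) hu₀
    have hF : C.Fil 0 ((ν⁻¹ * (u₀⁻¹ * (g⁻¹ * Ψ u * g) * u₀) * ν : GL C.Idx L) :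
        Matrix C.Idx C.Idx L) := by
      have h1 : ν⁻¹ * (u₀⁻¹ * (g⁻¹ * Ψ u * g) * u₀) * ν = v * (g'⁻¹ * Ψ u * g') * v⁻¹ := by
        have h2 : g' = g * (u₀ * ν * v) := by rw [← hyeq]; group
        rw [h2]
        group
      have h3 := C.Fil_mul (C.Fil_mul (C.P1_Fil_zero_of_U hv) (hfix' u hu))
        (C.P1_Fil_zero_of_U (inv_mem hv))
      rw [h1, Units.val_mul, Units.val_mul]
      simpa using h3
    have h4 := C.xi_eq_zero ν _ w hν hacts hx hF j hj
    rw [C.xi_mul j _ _ (mul_mem (inv_mem hu₀) hγ) hu₀, C.xi_mul j _ _ (inv_mem hu₀) hγ] at h4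
    have h5 := C.xi_mul j u₀⁻¹ u₀ (inv_mem hu₀) hu₀
    rw [inv_mul_cancel] at h5
    have h6 : C.xi j ((1 : GL C.Idx L) : Matrix C.Idx C.Idx L) = 0 := by
      simp [xi]
    rw [h6] at h5
    linear_combination h4 + h5

end SLC
end Pool.Agent.H75.UL
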