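import Pool.Agent.H86.UL.Null

/-!
# Project UL: spreading out
-/

set_option autoImplicit false

open MvPolynomial Matrix

namespace Pool.Agent.H75.UL

/-- Specialisation of a matrix of polynomials with integer coefficients. -/
noncomputable def evG {V I A : Type*} [Fintype I] [DecidableEq I] [CommRing A]
    (N : GL I (MvPolynomial V ℤ)) (y : V → A) : GL I A :=
  GeneralLinearGroup.map (eval₂Hom (Int.castRingHom A) y) N

theorem evG_map {V I A B : Type*} [Fintype I] [DecidableEq I] [CommRing A] [CommRing B]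
    (N : GL I (MvPolynomial V ℤ)) (y : V → A) (f : A →+* B) :
    GeneralLinearGroup.map f (evG N y) = evG N (fun v => f (y v)) := by
  have h : f.comp (eval₂Hom (Int.castRingHom A) y) =
      eval₂Hom (Int.castRingHom B) (fun v => f (y v)) := by
    apply MvPolynomial.ringHom_ext
    · intro r
      simp
    · intro i
      simp
  unfold evG
  rw [← h, GeneralLinearGroup.map_comp]
  rfl

theorem exists_map_eq {V L : Type*} [CommRing L] (R : Subring L) (p : MvPolynomial V L)
    (hp : ∀ m, p.coeff m ∈ R) : ∃ q : MvPolynomial V R, MvPolynomial.map R.subtype q = p := by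
  refine ⟨∑ m ∈ p.support, monomial m (⟨p.coeff m, hp m⟩ : R), ?_⟩
  rw [map_sum]
  simp only [map_monomial]
  exact (MvPolynomial.support_sum_monomial_coeff p)

theorem exists_lift {I L : Type*} [Fintype I] [DecidableEq I] [CommRing L] (R : Subring L)
    (g : GL I L) (h1 : ∀ a b, (g : Matrix I I L) a b ∈ R)
    (h2 : ∀ a b, ((g⁻¹ : GL I L) : Matrix I I L) a b ∈ R) :
    ∃ g' : GL I R, GeneralLinearGroup.map R.subtype g' = g := by
  have hinj : Function.Injective (RingHom.mapMatrix (m := I) R.subtype) := by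
    intro M M' h
    ext a b
    exact congrFun (congrFun h a) b
  let M1 : Matrix I I R := Matrix.of fun a b => ⟨g a b, h1 a b⟩
  let M2 : Matrix I I R := Matrix.of fun a b => ⟨(g⁻¹ : GL I L) a b, h2 a b⟩
  have e1 : RingHom.mapMatrix R.subtype M1 = (g : Matrix I I L) := rfl
  have e2 : RingHom.mapMatrix R.subtype M2 = ((g⁻¹ : GL I L) : Matrix I I L) := rfl
  refine ⟨⟨M1, M2, ?_, ?_⟩, ?_⟩
  · apply hinj
    rw [map_mul, e1, e2, map_one, ← Units.val_mul, mul_inv_cancel, Units.val_one]
  · apply hinj
    rw [map_mul, e1, e2, map_one, ← Units.val_mul, inv_mul_cancel, Units.val_one]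
  · apply Units.ext
    rfl

theorem finite_lift {I L : Type*} [Fintype I] [DecidableEq I] [CommRing L] (g : GL I L) :
    ∃ S : Set L, S.Finite ∧ ∀ R : Subring L, S ⊆ R →
      ∃ g' : GL I R, GeneralLinearGroup.map R.subtype g' = g := by
  refine ⟨Set.range (fun p : I × I => (g : Matrix I I L) p.1 p.2) ∪
    Set.range (fun p : I × I => ((g⁻¹ : GL I L) : Matrix I I L) p.1 p.2),
    (Set.finite_range _).union (Set.finite_range _), fun R hR => ?_⟩
  exact exists_lift R g (fun a b => hR (Or.inl ⟨(a, b), rfl⟩)) (fun a b => hR (Or.inr ⟨(a, b), rfl⟩))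

theorem finite_coeff {V L : Type*} [CommRing L] (p : MvPolynomial V L) :
    ∃ S : Set L, S.Finite ∧ ∀ R : Subring L, S ⊆ R →
      ∃ q : MvPolynomial V R, MvPolynomial.map R.subtype q = p := by
  refine ⟨(fun m => p.coeff m) '' (p.support : Set (V →₀ ℕ)), p.support.finite_toSet.image _,
    fun R hR => exists_map_eq R p fun m => ?_⟩
  by_cases h : m ∈ p.support
  · exact hR ⟨m, h, rfl⟩
  · rw [MvPolynomial.notMem_support_iff.mp h]
    exact R.zero_mem

/-- Spreading out: if no specialisation of the families `N w` brings all elements of `Γ` into the form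
given by `bad`, then this is witnessed by finitely many elements of `Γ`, and this persists after
applying homomorphisms defined on sufficiently large subrings. -/
theorem spread {L V W I : Type*} [Field L] [IsAlgClosed L] [Finite V] [Finite W] [Fintype I]
    [DecidableEq I] (N : W → GL I (MvPolynomial V ℤ)) (bad : I → I → Prop) (Γ : Set (GL I L))
    (h : ∀ w (y : V → L), ∃ γ ∈ Γ, ∃ a b, bad a b ∧
      (((evG (N w) y)⁻¹ * γ * evG (N w) y : GL I L) : Matrix I I L) a b ≠ 0) :
    ∃ (T : Set (GL I L)) (S₀ : Set L), T.Finite ∧ S₀.Finite ∧ T ⊆ Γ ∧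
      ∀ R : Subring L, S₀ ⊆ R → ∀ (F : Type*) [CommRing F] [Nontrivial F] (π : R →+* F) (w : W)
        (y : V → F), ∃ γ : GL I R, GeneralLinearGroup.map R.subtype γ ∈ T ∧ ∃ a b, bad a b ∧
          (((evG (N w) y)⁻¹ * GeneralLinearGroup.map π γ * evG (N w) y : GL I F) :
            Matrix I I F) a b ≠ 0 := by
  classical
  let ι : Type _ := {x : Γ × I × I // bad x.2.1 x.2.2}
  -- the polynomials, over any ring
  let P : (A : Type _) → [CommRing A] → W → GL I A → GL I (MvPolynomial V A) :=
    fun A _ w γ => (evG (N w) (fun v => X v))⁻¹ * GeneralLinearGroup.map C γ *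
      evG (N w) (fun v => X v)
  let E : W → ι → MvPolynomial V L := fun w x =>
    (P L w x.1.1.1 : Matrix I I (MvPolynomial V L)) x.1.2.1 x.1.2.2
  have hE : ∀ w (y : V → L) (x : ι), eval y (E w x) =
      (((evG (N w) y)⁻¹ * x.1.1.1 * evG (N w) y : GL I L) : Matrix I I L) x.1.2.1 x.1.2.2 := by
    intro w y x
    have h1 : GeneralLinearGroup.map (eval y) (P L w x.1.1.1) =
        (evG (N w) y)⁻¹ * x.1.1.1 * evG (N w) y := by
      change GeneralLinearGroup.map (eval y) ((evG (N w) (fun v => X v))⁻¹ *
        GeneralLinearGroup.map C x.1.1.1 * evG (N w) (fun v => X v)) = _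
      rw [map_mul, map_mul, map_inv, evG_map]
      simp only [eval_X]
      congr 2
      rw [← GeneralLinearGroup.map_comp_apply]
      have h2 : (eval y).comp C = RingHom.id L := by
        ext r
        simp
      rw [← GeneralLinearGroup.map_comp, h2, GeneralLinearGroup.map_id]
      rfl
    rw [← h1]
    rfl
  have hcert : ∀ w, ∃ (s : Finset ι) (g : ι → MvPolynomial V L), ∑ i ∈ s, g i * E w i = 1 := by
    intro w
    apply exists_certificate
    intro y
    obtain ⟨γ, hγ, a, b, hab, hne⟩ := h w y
    exact ⟨⟨(⟨γ, hγ⟩, a, b), hab⟩, by rw [hE]; exact hne⟩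
  choose s g hg using hcert
  choose S1 hS1 hS1' using fun γ : GL I L => finite_lift γ
  choose S2 hS2 hS2' using fun p : MvPolynomial V L => finite_coeff p
  refine ⟨⋃ w, ⋃ i ∈ s w, {i.1.1.1}, (⋃ w, ⋃ i ∈ s w, S1 i.1.1.1) ∪ (⋃ w, ⋃ i ∈ s w, S2 (g w i)),
    ?_, ?_, ?_, ?_⟩
  · exact Set.finite_iUnion fun w => (s w).finite_toSet.biUnion fun i _ => Set.finite_singleton _
  · refine Set.Finite.union ?_ ?_
    · exact Set.finite_iUnion fun w => (s w).finite_toSet.biUnion fun i _ => hS1 _
    · exact Set.finite_iUnion fun w => (s w).finite_toSet.biUnion fun i _ => hS2 _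
  · refine Set.iUnion_subset fun w => Set.iUnion₂_subset fun i _ => ?_
    rw [Set.singleton_subset_iff]
    exact i.1.1.2
  · intro R hR F _ _ π w y
    by_contra hcon
    push Not at hcon
    have hl : ∀ i ∈ s w, ∃ γ : GL I R, GeneralLinearGroup.map R.subtype γ = i.1.1.1 := fun i hi =>
      hS1' _ R (fun x hx => hR (Or.inl (Set.mem_iUnion.mpr ⟨w, Set.mem_iUnion₂.mpr ⟨i, hi, hx⟩⟩)))
    have hp : ∀ i ∈ s w, ∃ q : MvPolynomial V R, MvPolynomial.map R.subtype q = g w i :=
      fun i hi => hS2' _ R (fun x hx => hR (Or.inr (Set.mem_iUnion.mpr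
        ⟨w, Set.mem_iUnion₂.mpr ⟨i, hi, hx⟩⟩)))
    choose! γ hγ using hl
    choose! q hq using hp
    have hinj : Function.Injective (MvPolynomial.map (σ := V) R.subtype) :=
      MvPolynomial.map_injective _ Subtype.val_injective
    -- the certificate over `R`
    have hsum : ∑ i ∈ s w, q i * (P R w (γ i) : Matrix I I (MvPolynomial V R)) i.1.2.1 i.1.2.2
        = 1 := by
      apply hinj
      rw [map_sum, map_one, ← hg w]
      refine Finset.sum_congr rfl fun i hi => ?_
      rw [map_mul, hq i hi]
      congr 1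
      have h1 : GeneralLinearGroup.map (MvPolynomial.map R.subtype) (P R w (γ i)) =
          P L w i.1.1.1 := by
        change GeneralLinearGroup.map (MvPolynomial.map R.subtype) ((evG (N w) (fun v => X v))⁻¹ *
          GeneralLinearGroup.map C (γ i) * evG (N w) (fun v => X v)) =
          (evG (N w) (fun v => X v))⁻¹ * GeneralLinearGroup.map C i.1.1.1 *
          evG (N w) (fun v => X v)
        rw [map_mul, map_mul, map_inv, evG_map]
        simp only [map_X]
        congr 2
        rw [← GeneralLinearGroup.map_comp_apply, ← hγ i hi, ← GeneralLinearGroup.map_comp_apply]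
        congr 1
        have h2 : (MvPolynomial.map R.subtype).comp C =
            (C (σ := V)).comp R.subtype := by
          ext r
          simp
        rw [← GeneralLinearGroup.map_comp, ← GeneralLinearGroup.map_comp, h2]
      change _ = (P L w i.1.1.1 : Matrix I I (MvPolynomial V L)) i.1.2.1 i.1.2.2
      rw [← h1]
      rfl
    have h3 := congrArg (eval₂Hom π y) hsum
    rw [map_sum, map_one] at h3
    apply one_ne_zero (α := F)
    rw [← h3]
    refine Finset.sum_eq_zero fun i hi => ?_
    rw [map_mul]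
    have h4 : GeneralLinearGroup.map (eval₂Hom π y) (P R w (γ i)) =
        (evG (N w) y)⁻¹ * GeneralLinearGroup.map π (γ i) * evG (N w) y := by
      change GeneralLinearGroup.map (eval₂Hom π y) ((evG (N w) (fun v => X v))⁻¹ *
        GeneralLinearGroup.map C (γ i) * evG (N w) (fun v => X v)) = _
      rw [map_mul, map_mul, map_inv, evG_map]
      simp only [eval₂Hom_X']
      congr 2
      rw [← GeneralLinearGroup.map_comp_apply]
      congr 1
      have h2 : (eval₂Hom π y).comp C = π := by
        ext r
        simp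
      rw [← GeneralLinearGroup.map_comp, h2]
    have h5 := hcon (γ i) (by
      rw [hγ i hi]
      exact Set.mem_iUnion.mpr ⟨w, Set.mem_iUnion₂.mpr ⟨i, hi, rfl⟩⟩) i.1.2.1 i.1.2.2 i.2
    have h6 : eval₂Hom π y ((P R w (γ i) : Matrix I I (MvPolynomial V R)) i.1.2.1 i.1.2.2) = 0 := by
      rw [← h5, ← h4]
      rfl
    rw [h6, mul_zero]

end Pool.Agent.H75.UL
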