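import Pool.Agent.H86.UL.F1
import Pool.Agent.H86.UL.Spread

/-!
# Project UL, module F2: a group of unipotents in the adjoint group over an algebraically closed field
fixes a chamber
-/

set_option autoImplicit false
open Matrix

namespace Pool.Agent.H75.UL
namespace SLC
variable {n : ℕ} (C : SLC n)

theorem X_map {R S : Type*} [CommRing R] [CommRing S] (f : R →+* S) (α : C.Root) (t : R) :
    (C.X R α t).map f = C.X S α (f t) := by
  ext a b
  by_cases h : a = b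
  · subst h
    simp [X, Matrix.smul_apply]
  · simp [X, Matrix.smul_apply, Matrix.one_apply_ne h]

theorem xg_map {R S : Type*} [CommRing R] [CommRing S] (f : R →+* S) (α : C.Root) (t : R) :
    GeneralLinearGroup.map f (C.xg R α t) = C.xg S α (f t) := by
  apply Units.ext
  exact C.X_map f α t

theorem Gad_map {R S : Type*} [CommRing R] [CommRing S] (f : R →+* S) :
    (C.Gad R).map (GeneralLinearGroup.map f) ≤ C.Gad S := by
  unfold Gad
  rw [MonoidHom.map_closure, Subgroup.closure_le]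
  rintro _ ⟨_, ⟨⟨α, t⟩, rfl⟩, rfl⟩
  refine Subgroup.subset_closure ⟨(α, f t), ?_⟩
  exact (C.xg_map f α t).symm

theorem finite_lift_Gad {L : Type*} [Field L] (γ : GL C.Idx L) (hγ : γ ∈ C.Gad L) :
    ∃ S : Set L, S.Finite ∧ ∀ R : Subring L, S ⊆ R →
      ∃ γ' ∈ C.Gad R, GeneralLinearGroup.map R.subtype γ' = γ := by
  unfold Gad at hγ
  induction hγ using Subgroup.closure_induction with
  | mem x hx =>
    obtain ⟨⟨α, t⟩, rfl⟩ := hx
    refine ⟨{t}, Set.finite_singleton t, fun R hR => ⟨C.xg R α ⟨t, hR rfl⟩, ?_, C.xg_map _ _ _⟩⟩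
    exact Subgroup.subset_closure ⟨(α, ⟨t, hR rfl⟩), rfl⟩
  | one => exact ⟨∅, Set.finite_empty, fun R _ => ⟨1, Subgroup.one_mem _, map_one _⟩⟩
  | mul x y _ _ hx hy =>
    obtain ⟨S1, h1, h1'⟩ := hx
    obtain ⟨S2, h2, h2'⟩ := hy
    refine ⟨S1 ∪ S2, h1.union h2, fun R hR => ?_⟩
    obtain ⟨a, ha, ha'⟩ := h1' R (fun x hx => hR (Or.inl hx))
    obtain ⟨b, hb, hb'⟩ := h2' R (fun x hx => hR (Or.inr hx))
    exact ⟨a * b, Subgroup.mul_mem _ ha hb, by rw [map_mul, ha', hb']⟩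
  | inv x _ hx =>
    obtain ⟨S1, h1, h1'⟩ := hx
    refine ⟨S1, h1, fun R hR => ?_⟩
    obtain ⟨a, ha, ha'⟩ := h1' R hR
    exact ⟨a⁻¹, Subgroup.inv_mem _ ha, by rw [map_inv, ha']⟩

/-- The family `u(y) n_w` over the integers. -/
noncomputable def cell (l : List (Fin n)) : GL C.Idx (MvPolynomial C.Root ℤ) :=
  (C.posList.map fun β => C.xg (MvPolynomial C.Root ℤ) β (MvPolynomial.X β)).prod *
    (l.map fun i => C.xg (MvPolynomial C.Root ℤ) (C.simple i) 1 *
      C.xg (MvPolynomial C.Root ℤ) (-(C.simple i)) 1 *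
      C.xg (MvPolynomial C.Root ℤ) (C.simple i) 1).prod

theorem evG_cell {F : Type*} [Field F] (l : List (Fin n)) (y : C.Root → F) :
    evG (C.cell l) y = (C.adS F).lp C.posList y * (C.adS F).nword l := by
  unfold evG cell StSys.lp StSys.nword nn
  rw [map_mul, map_list_prod, map_list_prod, List.map_map, List.map_map]
  congr 2
  · apply List.map_congr_left
    intro β _
    simp only [Function.comp_apply]
    rw [xg_map]
    simp only [MvPolynomial.eval₂Hom_X']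
    rfl
  · apply List.map_congr_left
    intro i _
    simp only [Function.comp_apply]
    rw [map_mul, map_mul, xg_map, xg_map, map_one, inv_one]
    rfl

theorem Acts_mul {K : Type*} [Field K] {H : Type*} [Group H] (S : StSys C K H) (g g' : H)
    (w w' : Equiv.Perm C.Root) (h : S.Acts g w) (h' : S.Acts g' w') : S.Acts (g * g') (w * w') := by
  obtain ⟨c, hc, h1⟩ := h
  obtain ⟨c', hc', h1'⟩ := h'
  refine ⟨fun β => c (w' β) * c' β, fun β => mul_ne_zero (hc _) (hc' _), fun β u => ?_⟩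
  rw [show g * g' * S.x β u * (g * g')⁻¹ = g * (g' * S.x β u * g'⁻¹) * g⁻¹ by group, h1', h1,
    mul_assoc]
  rfl

theorem Acts_inv {K : Type*} [Field K] {H : Type*} [Group H] (S : StSys C K H) (g : H)
    (w : Equiv.Perm C.Root) (h : S.Acts g w) : S.Acts g⁻¹ w⁻¹ := by
  obtain ⟨c, hc, h1⟩ := h
  refine ⟨fun β => (c (w⁻¹ β))⁻¹, fun β => inv_ne_zero (hc _), fun β u => ?_⟩
  have h2 := h1 (w⁻¹ β) ((c (w⁻¹ β))⁻¹ * u)
  rw [mul_inv_cancel_left₀ (hc _), ← Equiv.Perm.mul_apply, mul_inv_cancel, Equiv.Perm.one_apply] at h2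
  rw [← h2]
  group

theorem isNilpotent_lift {L I : Type*} [CommRing L] [Fintype I] [DecidableEq I] (R : Subring L)
    (g : GL I R) (h : IsNilpotent
      (((GeneralLinearGroup.map R.subtype g : GL I L) : Matrix I I L) - 1)) :
    IsNilpotent ((g : Matrix I I R) - 1) := by
  have hinj : Function.Injective (RingHom.mapMatrix (m := I) R.subtype) := by
    intro M M' h
    ext a b
    exact congrFun (congrFun h a) b
  obtain ⟨k, hk⟩ := h
  refine ⟨k, hinj ?_⟩
  rw [map_pow, map_sub, map_one, map_zero]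
  exact hk

theorem isNilpotent_map {A B I : Type*} [CommRing A] [CommRing B] [Fintype I] [DecidableEq I]
    (f : A →+* B) (g : GL I A) (h : IsNilpotent ((g : Matrix I I A) - 1)) :
    IsNilpotent (((GeneralLinearGroup.map f g : GL I B) : Matrix I I B) - 1) := by
  have h1 := h.map (RingHom.mapMatrix (m := I) f)
  rw [map_sub, map_one] at h1
  exact h1

theorem pow_eq_one_of_nilpotent {F I : Type*} [Field F] [Fintype I] [DecidableEq I]
    (p : ℕ) [Fact p.Prime] [CharP F p] (g : GL I F)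
    (h : IsNilpotent ((g : Matrix I I F) - 1)) : ∃ k : ℕ, g ^ p ^ k = 1 := by
  rcases isEmpty_or_nonempty I with hE | hE
  · exact ⟨0, Units.ext (Subsingleton.elim _ _)⟩
  obtain ⟨m, hm⟩ := h
  have h1 : ((g : Matrix I I F) - 1) ^ p ^ m = 0 :=
    pow_eq_zero_of_le (Nat.lt_pow_self (Fact.out : p.Prime).one_lt).le hm
  rw [sub_pow_char_pow_of_commute _ _ (Commute.one_right _), one_pow, sub_eq_zero] at h1
  refine ⟨m, Units.ext ?_⟩
  rw [Units.val_pow_eq_pow_val]
  exact h1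

theorem fixed_chamber (L : Type*) [Field L] [IsAlgClosed L] (Γ : Subgroup (GL C.Idx L))
    (hΓ : Γ ≤ C.Gad L) (hu : ∀ γ ∈ Γ, IsNilpotent ((γ : Matrix C.Idx C.Idx L) - 1)) :
    ∃ g ∈ C.Gad L, ∀ x ∈ Γ, C.Fil 0 ((g⁻¹ * x * g : GL C.Idx L) : Matrix C.Idx C.Idx L) := by
  by_contra hcon
  push Not at hcon
  choose word hword using fun w : C.W => C.exists_wd w.1 w.2
  have hcell : ∀ (l : List (Fin n)) (y : C.Root → L), evG (C.cell l) y ∈ C.Gad L := by
    intro l y
    rw [evG_cell, ← gen_adS]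
    refine Subgroup.mul_mem _ ?_ ((C.adS L).N_le_gen ((C.adS L).nword_mem l))
    refine Subgroup.list_prod_mem _ fun x hx => ?_
    rw [List.mem_map] at hx
    obtain ⟨β, _, rfl⟩ := hx
    exact Subgroup.subset_closure ⟨β, y β, rfl⟩
  obtain ⟨T, S₀, hT, hS₀, hTΓ, hsp⟩ := spread (fun w : C.W => C.cell (word w))
    (fun a b => C.hti a < C.hti b + 0) (Γ : Set (GL C.Idx L)) (by
      intro w y
      obtain ⟨x, hx, hne⟩ := hcon _ (hcell (word w) y)
      refine ⟨x, hx, ?_⟩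
      by_contra hc
      push Not at hc
      exact hne fun a b hab => hc a b hab)
  choose! S1 hS1 hS1' using fun γ (hγ : γ ∈ T) => C.finite_lift_Gad γ (hΓ (hTΓ hγ))
  obtain ⟨R, hR, F, hF, hfin, ⟨π⟩⟩ := exists_finite_residue (S₀ ∪ ⋃ γ ∈ T, S1 γ)
    (hS₀.union (hT.biUnion fun γ hγ => hS1 γ hγ))
  obtain ⟨p, hp⟩ := CharP.exists F
  have hpr : Fact p.Prime := ⟨CharP.char_is_prime F p⟩
  let ΓR : Subgroup (GL C.Idx R) := C.Gad R ⊓ Γ.comap (GeneralLinearGroup.map R.subtype)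
  let P : Subgroup (GL C.Idx F) := ΓR.map (GeneralLinearGroup.map π)
  have hPG : P ≤ C.Gad F := (Subgroup.map_mono inf_le_left).trans (C.Gad_map π)
  have hPp : IsPGroup p P := by
    rintro ⟨x, x', hx', rfl⟩
    have h1 : IsNilpotent ((x' : Matrix C.Idx C.Idx R) - 1) := isNilpotent_lift R x' (hu _ hx'.2)
    obtain ⟨k, hk⟩ := pow_eq_one_of_nilpotent p _ (isNilpotent_map π x' h1)
    exact ⟨k, Subtype.ext hk⟩
  obtain ⟨g, hg, hfix⟩ := C.fixed_finite' F p P hPG hPp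
  rw [← gen_adS] at hg
  obtain ⟨u, hu1, ν, hν, v, hv, rfl⟩ := (C.adS F).bruhat g hg
  obtain ⟨w, hw, hact, -⟩ := (C.adS F).N_acts ν hν
  obtain ⟨y, -, rfl⟩ := (C.adS F).exists_lp 1 le_rfl u hu1
  -- `ν = nword * τ`
  set ν₀ := (C.adS F).nword (word ⟨w, hw⟩) with hν₀
  have hν₀N : ν₀ ∈ (C.adS F).N := (C.adS F).nword_mem _
  have hact₀ : (C.adS F).Acts ν₀ w := by
    have h1 := (C.adS F).nword_acts (word ⟨w, hw⟩)
    rwa [← hword ⟨w, hw⟩] at h1
  have hτ : ν₀⁻¹ * ν ∈ (C.adS F).T := by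
    apply C.N_one _ _ (Subgroup.mul_mem _ (Subgroup.inv_mem _ hν₀N) hν)
    have h1 := C.Acts_mul (C.adS F) _ _ _ _ (C.Acts_inv (C.adS F) _ _ hact₀) hact
    rwa [inv_mul_cancel] at h1
  set τ := ν₀⁻¹ * ν with hτdef
  have hνeq : ν = ν₀ * τ := by rw [hτdef]; group
  obtain ⟨γ, hγT, a, b, hab, hne⟩ := hsp R (fun x hx => hR (Or.inl hx)) F π ⟨w, hw⟩ y
  apply hne
  -- `γ` is in `ΓR`
  obtain ⟨γ', hγ', hγ'2⟩ := hS1' _ hγT R (fun x hx => hR (Or.inr (Set.mem_iUnion₂.mpr ⟨_, hγT, hx⟩)))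
  have hγγ : γ = γ' := by
    have hinj : Function.Injective (RingHom.mapMatrix (m := C.Idx) R.subtype) := by
      intro M M' h
      ext a b
      exact congrFun (congrFun h a) b
    apply Units.ext
    apply hinj
    exact (congrArg (fun g : GL C.Idx L => (g : Matrix C.Idx C.Idx L)) hγ'2).symm
  have hxP : GeneralLinearGroup.map π γ ∈ P := by
    refine ⟨γ, ⟨?_, ?_⟩, rfl⟩
    · rw [hγγ]; exact hγ'
    · exact hTΓ hγT
  have h2 := hfix _ hxP
  have hb0 : C.Fil 0 ((τ * v : GL C.Idx F) : Matrix C.Idx C.Idx F) := by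
    rw [Units.val_mul]
    have := C.Fil_mul (C.Fil_T τ hτ) (C.Fil_U_zero v hv)
    rwa [add_zero] at this
  have hbG : τ * v ∈ C.Gad F := by
    rw [← gen_adS]
    exact Subgroup.mul_mem _ ((C.adS F).T_le_gen hτ) ((C.adS F).U_le_gen 1 hv)
  have hb0' := C.upper_inv _ hbG hb0
  have h3 : (evG (C.cell (word ⟨w, hw⟩)) y)⁻¹ * GeneralLinearGroup.map π γ *
      evG (C.cell (word ⟨w, hw⟩)) y = (τ * v) * (((C.adS F).lp C.posList y * ν * v)⁻¹ *
        GeneralLinearGroup.map π γ * ((C.adS F).lp C.posList y * ν * v)) * (τ * v)⁻¹ := by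
    rw [evG_cell, ← hν₀, hνeq]
    group
  rw [h3]
  have h4 := C.Fil_mul (C.Fil_mul hb0 h2) hb0'
  rw [add_zero, add_zero, ← Units.val_mul, ← Units.val_mul] at h4
  exact h4 a b hab

end SLC
end Pool.Agent.H75.UL
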