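import Pool.Agent.H75.UL.T7
import Pool.Agent.H75.UL.S7
import Pool.Agent.H75.UL.R5

/-!
# Project UL, module F1: a p-subgroup of the adjoint group over a finite field fixes a chamber

Proof. `G = Gad F` is finite (`gen_adS`, `StSys.finite_gen`). `B := {g ∈ G | Fil 0 g}` is a subgroup
(closed under products by `Fil_mul`, and a submonoid of a finite group is closed under inverses:
`g⁻¹ = g ^ k`).
(1) `U := (adS F).U 1 ≤ G` is a `p`-group: for `u ∈ U`, `Fil 1 (u - 1)` (`Fil_U`), so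
`Fil m ((u - 1) ^ m)` and by `Fil_eq_zero` `(u - 1) ^ N = 0` for a suitable `N`; with `p ^ m ≥ N`:
`u ^ p ^ m - 1 = (u - 1) ^ p ^ m = 0` (`sub_pow_char_pow_of_commute` in the matrix ring, which has
characteristic `p`).
(2) `U` acts on `G ⧸ B` by left multiplication (everything inside the finite group `G`); the coset of
`1` is fixed (`U ≤ B` by `Fil_U`). It is the only fixed point: let `g B` be fixed; by `bruhat`
`g = u ν v` with `u, v ∈ U`, `ν ∈ N`; `N_acts`: `Acts ν w`, `w ∈ W`, and `w = 1 → ν ∈ T`. All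
`g⁻¹ x g`, `x ∈ U`, lie in `B`, so `ν⁻¹ x ν ∈ B` for all `x ∈ U`. If `w⁻¹ ≠ 1`, by `eq_one_of_pos`
there is `i` with `β := w⁻¹ (simple i)` not positive; from `Acts ν w` (with `c β ≠ 0`),
`ν * x_β(t) * ν⁻¹ = x_(simple i)(c β * t)`, so `ν⁻¹ x_(simple i)(c β) ν = x_β(1)`, which is not
`Fil 0`: the entry of `X β 1` at `(inl l, inr (-β))` is `- β_l` (`E` and `F` explicit), nonzero for
some `l` (`exists_coeff_ne_zero`), while `hti (inl l) = 0 < ht (-β) = hti (inr (-β))`
(`not_pos_iff`). So `w = 1`, `ν ∈ T`, `ν` is diagonal (`T_diag`), so `g = u ν v ∈ B`.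
(3) Hence `card (G ⧸ B) ≡ 1 mod p` (`IsPGroup.card_modEq_card_fixedPoints`), `p` does not divide it,
and the `p`-group `P` has a fixed point on `G ⧸ B`
(`IsPGroup.nonempty_fixed_point_of_prime_not_dvd_card`): a coset `g B` with `g⁻¹ x g ∈ B` for `x ∈ P`.
-/

set_option autoImplicit false
open Matrix

namespace Pool.Agent.H75.UL

/-- counting of fixed points on the cosets. -/
private theorem F1_grp {H : Type*} [Group H] [Finite H] (p : ℕ) [Fact p.Prime]
    (G B U P : Subgroup H) (hUG : U ≤ G) (hUB : U ≤ B) (hU : IsPGroup p U) (hP : IsPGroup p P)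
    (hPG : P ≤ G) (key : ∀ g ∈ G, (∀ x ∈ U, g⁻¹ * x * g ∈ B) → g ∈ B) :
    ∃ g ∈ G, ∀ x ∈ P, g⁻¹ * x * g ∈ B := by
  have hU' : IsPGroup p (U.subgroupOf G) :=
    hU.of_injective (Subgroup.subgroupOfEquivOfLe hUG).toMonoidHom
      (Subgroup.subgroupOfEquivOfLe hUG).injective
  have hP' : IsPGroup p (P.subgroupOf G) :=
    hP.of_injective (Subgroup.subgroupOfEquivOfLe hPG).toMonoidHom
      (Subgroup.subgroupOfEquivOfLe hPG).injective
  have hfix : ∀ (Q : Subgroup H), ∀ g : G,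
      ((g : G ⧸ B.subgroupOf G) ∈ MulAction.fixedPoints (Q.subgroupOf G) (G ⧸ B.subgroupOf G) ↔
        ∀ x ∈ Q, ∀ hx : x ∈ G, (g : H)⁻¹ * x * g ∈ B) := by
    intro Q g
    rw [MulAction.mem_fixedPoints]
    have e1 : ∀ y : Q.subgroupOf G, (y • (g : G ⧸ B.subgroupOf G) = (g : G ⧸ B.subgroupOf G) ↔
        (g : H)⁻¹ * ((y : G) : H) * g ∈ B) := by
      intro y
      have e2 : y • (g : G ⧸ B.subgroupOf G) = (((y : G) * g : G) : G ⧸ B.subgroupOf G) := rfl
      rw [e2, eq_comm, QuotientGroup.eq, Subgroup.mem_subgroupOf]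
      rw [← mul_assoc]
      exact Iff.rfl
    constructor
    · intro h x hx hxG
      exact (e1 ⟨⟨x, hxG⟩, Subgroup.mem_subgroupOf.mpr hx⟩).mp (h _)
    · intro h y
      rw [e1]
      exact h _ (Subgroup.mem_subgroupOf.mp y.2) (y : G).2
  have hcard : Nat.card (MulAction.fixedPoints (U.subgroupOf G) (G ⧸ B.subgroupOf G)) = 1 := by
    rw [Nat.card_eq_one_iff_unique]
    constructor
    · have hall : ∀ q : MulAction.fixedPoints (U.subgroupOf G) (G ⧸ B.subgroupOf G),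
          (q : G ⧸ B.subgroupOf G) = ((1 : G) : G ⧸ B.subgroupOf G) := by
        rintro ⟨q, hq⟩
        obtain ⟨g, rfl⟩ := QuotientGroup.mk_surjective q
        show ((g : G) : G ⧸ B.subgroupOf G) = _
        rw [eq_comm, QuotientGroup.eq, Subgroup.mem_subgroupOf, inv_one, one_mul]
        exact key g g.2 fun x hx => (hfix U g).mp hq x hx (hUG hx)
      exact ⟨fun a b => Subtype.ext ((hall a).trans (hall b).symm)⟩
    · refine ⟨⟨((1 : G) : G ⧸ B.subgroupOf G), (hfix U 1).mpr fun x hx _ => ?_⟩⟩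
      simpa using hUB hx
  have hmod := hU'.card_modEq_card_fixedPoints (G ⧸ B.subgroupOf G)
  rw [hcard] at hmod
  have hnd : ¬ p ∣ Nat.card (G ⧸ B.subgroupOf G) := by
    intro hd
    have h1 := (Nat.modEq_zero_iff_dvd.mpr hd).symm.trans hmod
    have h2 : p ∣ 1 := (Nat.modEq_zero_iff_dvd.mp h1.symm)
    exact (Fact.out : p.Prime).one_lt.ne' (Nat.dvd_one.mp h2)
  obtain ⟨q, hq⟩ := hP'.nonempty_fixed_point_of_prime_not_dvd_card (G ⧸ B.subgroupOf G) hnd
  obtain ⟨g, rfl⟩ := QuotientGroup.mk_surjective q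
  exact ⟨g, g.2, fun x hx => (hfix P g).mp hq x hx (hPG hx)⟩

namespace SLC
variable {n : ℕ} (C : SLC n)

/-- the subgroup of the elements which preserve the filtration (over a finite ring). -/
private def F1_B (F : Type*) [Field F] [Finite F] : Subgroup (GL C.Idx F) where
  carrier := {g | C.Fil 0 (g : Matrix C.Idx C.Idx F)}
  mul_mem' := by
    intro a b ha hb
    show C.Fil 0 (((a * b : GL C.Idx F)) : Matrix C.Idx C.Idx F)
    rw [Units.val_mul]
    have := C.Fil_mul ha hb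
    rwa [add_zero] at this
  one_mem' := by
    show C.Fil 0 ((1 : GL C.Idx F) : Matrix C.Idx C.Idx F)
    rw [Units.val_one]
    exact C.Fil_one
  inv_mem' := by
    intro a ha
    have hpow : ∀ k : ℕ, C.Fil 0 (((a ^ k : GL C.Idx F)) : Matrix C.Idx C.Idx F) := by
      intro k
      induction k with
      | zero =>
        rw [pow_zero, Units.val_one]
        exact C.Fil_one
      | succ k ih =>
        rw [pow_succ, Units.val_mul]
        have := C.Fil_mul ih ha
        rwa [add_zero] at this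
    show C.Fil 0 ((a⁻¹ : GL C.Idx F) : Matrix C.Idx C.Idx F)
    have h1 : a⁻¹ = a ^ (orderOf a - 1) := by
      have h2 : 0 < orderOf a := orderOf_pos a
      rw [inv_eq_iff_mul_eq_one, ← pow_succ', Nat.sub_add_cancel h2, pow_orderOf_eq_one]
    rw [h1]
    exact hpow _

private theorem F1_mem_B {F : Type*} [Field F] [Finite F] (g : GL C.Idx F) :
    g ∈ C.F1_B F ↔ C.Fil 0 (g : Matrix C.Idx C.Idx F) := Iff.rfl

private theorem F1_U_le {F : Type*} [Field F] [Finite F] : (C.adS F).U 1 ≤ C.F1_B F := by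
  intro u hu
  rw [F1_mem_B]
  have h1 := C.Fil_mono (by norm_num : (0 : ℤ) ≤ 1) (C.Fil_U 1 le_rfl u hu)
  have h2 := C.Fil_add h1 C.Fil_one
  rwa [sub_add_cancel] at h2

private theorem F1_pgroup (F : Type*) [Field F] [Finite F] (p : ℕ) [Fact p.Prime] [CharP F p] :
    IsPGroup p ((C.adS F).U 1) := by
  rintro ⟨u, hu⟩
  rcases isEmpty_or_nonempty C.Idx with hE | hE
  · refine ⟨0, ?_⟩
    apply Subtype.ext
    apply Units.ext
    exact Subsingleton.elim _ _
  obtain ⟨m₀, hm₀⟩ := C.exists_Fil_eq_zero' F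
  have hpow : ∀ k : ℕ, C.Fil (k : ℤ) (((u : Matrix C.Idx C.Idx F) - 1) ^ k) := by
    intro k
    induction k with
    | zero =>
      rw [pow_zero]
      exact C.Fil_one
    | succ k ih =>
      rw [pow_succ]
      have := C.Fil_mul ih (C.Fil_U 1 le_rfl u hu)
      push_cast
      exact this
  have h0 : ((u : Matrix C.Idx C.Idx F) - 1) ^ m₀.toNat = 0 :=
    hm₀ _ (C.Fil_mono (Int.self_le_toNat m₀) (hpow m₀.toNat))
  have h1 : ((u : Matrix C.Idx C.Idx F) - 1) ^ p ^ m₀.toNat = 0 :=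
    pow_eq_zero_of_le (Nat.lt_pow_self (Fact.out : p.Prime).one_lt).le h0
  rw [sub_pow_char_pow_of_commute _ _ (Commute.one_right _), one_pow, sub_eq_zero] at h1
  refine ⟨m₀.toNat, ?_⟩
  apply Subtype.ext
  apply Units.ext
  show (((u ^ p ^ m₀.toNat : GL C.Idx F)) : Matrix C.Idx C.Idx F) = 1
  rw [Units.val_pow_eq_pow_val]
  exact h1

private theorem F1_key (F : Type*) [Field F] [Finite F] (g : GL C.Idx F) (hg : g ∈ C.Gad F)
    (h : ∀ x ∈ (C.adS F).U 1, g⁻¹ * x * g ∈ C.F1_B F) : g ∈ C.F1_B F := by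
  rw [← C.gen_adS] at hg
  obtain ⟨u, hu, ν, hν, v, hv, rfl⟩ := (C.adS F).bruhat g hg
  obtain ⟨w, hw, hact, hw1⟩ := (C.adS F).N_acts ν hν
  have huB := C.F1_U_le hu
  have hvB := C.F1_U_le hv
  have hνB : ∀ x ∈ (C.adS F).U 1, ν⁻¹ * x * ν ∈ C.F1_B F := by
    intro x hx
    have h1 := h (u * x * u⁻¹) (Subgroup.mul_mem _ (Subgroup.mul_mem _ hu hx)
      (Subgroup.inv_mem _ hu))
    have h2 : ν⁻¹ * x * ν = v * ((u * ν * v)⁻¹ * (u * x * u⁻¹) * (u * ν * v)) * v⁻¹ := by
      group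
    rw [h2]
    exact Subgroup.mul_mem _ (Subgroup.mul_mem _ hvB h1) (Subgroup.inv_mem _ hvB)
  have hw2 : w = 1 := by
    by_contra hne
    have h3 : ∃ i, ¬ C.Pos (w⁻¹ (C.simple i)) := by
      by_contra hcon
      push Not at hcon
      apply hne
      have := C.eq_one_of_pos w⁻¹ (Subgroup.inv_mem _ hw) hcon
      exact inv_eq_one.mp this
    obtain ⟨i, hi⟩ := h3
    have hx : C.xg F (C.simple i) 1 ∈ (C.adS F).U 1 := by
      apply Subgroup.subset_closure
      exact ⟨C.simple i, 1, (C.ht_simple i).ge, rfl⟩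
    have h4 := C.xi_eq_zero ν _ w hν hact hx (hνB _ hx) i hi
    rw [C.xi_xg i (C.simple i) (C.simple_pos i), if_pos rfl] at h4
    exact one_ne_zero h4
  have hνT := hw1 hw2
  have hνB2 : ν ∈ C.F1_B F := by
    rw [F1_mem_B]
    obtain ⟨c, hc⟩ := C.T_diag ν hνT
    rw [hc]
    intro a b hab
    apply Matrix.diagonal_apply_ne
    rintro rfl
    omega
  exact Subgroup.mul_mem _ (Subgroup.mul_mem _ huB hνB2) hvB

theorem fixed_finite' (F : Type*) [Field F] [Finite F] (p : ℕ) [Fact p.Prime] [CharP F p]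
    (P : Subgroup (GL C.Idx F)) (hP : P ≤ C.Gad F) (hp : IsPGroup p P) :
    ∃ g ∈ C.Gad F, ∀ x ∈ P, C.Fil 0 ((g⁻¹ * x * g : GL C.Idx F) : Matrix C.Idx C.Idx F) := by
  have hUG : (C.adS F).U 1 ≤ C.Gad F := by
    rw [← C.gen_adS]
    exact (C.adS F).U_le_gen 1
  exact F1_grp p (C.Gad F) (C.F1_B F) ((C.adS F).U 1) P hUG C.F1_U_le (C.F1_pgroup F p) hp hP
    (C.F1_key F)

end SLC
end Pool.Agent.H75.UL
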