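import Pool.Agent.H75.UL.S2

/-!
# Project UL, module K1: the torus trick

`S` a Steinberg system over an infinite field `k` in `H`, `ρ` a representation of `H` on a finite
dimensional space `V` over an algebraically closed field `L` (no relation between `k` and `L`). Then
each `ρ (x_β(t))` is unipotent.

Proof. By strong induction on `finrank V` (over all `V` in the universe, and for all `ρ`); `V = 0`
trivial. Write `a t = ρ (x_β(t))` (commuting operators with `a (s + t) = a s * a t`, `a 0 = 1`) and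
`τ s = ρ (hh S.x β s)`, `s ≠ 0`: `τ s * a t = a (s ^ 2 * t) * τ s` (`StSys.h_conj` with
`ip β β = 2`, `C.Root.norm`).
(1) For `χ : k → L` let `V_χ = {v | a t v = χ t • v for all t}`. Some `χ` has `V_χ ≠ 0`: take a
nonzero subspace `W` invariant under all `a t` of minimal dimension; an eigenspace of `a t` in `W`
(`L` algebraically closed) is invariant under all `a t'` (they commute), so equals `W`; so each `a t`
is a scalar `χ t` on `W`.
(2) There are only finitely many `χ` with `V_χ ≠ 0`: vectors `v_χ ∈ V_χ` nonzero for distinct `χ` are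
linearly independent (standard; or: if `χ ≠ χ'` then some `t` has `χ t ≠ χ' t`; shortest relation
argument), so there are at most `finrank V` of them.
(3) `τ s` maps `V_χ` onto `V_χ'` with `χ' t = χ (s⁻¹ ^ 2 * t)`; so all the functions
`t ↦ χ (s ^ 2 * t)`, `s ≠ 0`, are in the finite set of (2). `k` is infinite, so there are `s, s' ≠ 0`
with `s ^ 2 ≠ s' ^ 2` and `χ (s ^ 2 * t) = χ (s' ^ 2 * t)` for all `t` (the map `s ↦ χ (s ^ 2 * ·)` has
a fibre that is infinite, and `s ^ 2` takes infinitely many values on it). As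
`χ (t + t') = χ t * χ t'`, `χ t ≠ 0`: `χ ((s ^ 2 - s' ^ 2) * t) = 1` for all `t`, so `χ = 1`.
(4) So `V₁ := {v | a t v = v for all t} ≠ 0`. It is invariant under all `a t`, `τ s`. To have an
action of a group on the quotient `V ⧸ V₁` apply the induction to the statement for families, i.e.
prove by induction the abstract statement `torus_trick` below, where only operators
`a : k → End V`, `τ : kˣ → End V` with `a (s+t) = a s * a t`, `a 0 = 1`, `τ s` invertible (injective)
and `τ s * a t = a (s ^ 2 * t) * τ s` occur: they induce such a family on `V ⧸ V₁` (`mapQ`; `τ s` maps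
`V₁` to `V₁` and is injective on the finite dimensional `V₁`, so onto `V₁`, so the induced map is
injective). By induction all `a t` are unipotent on `V ⧸ V₁`, and they are `1` on `V₁`, so they are
unipotent on `V`.
-/

set_option autoImplicit false
open Matrix

universe v

namespace Pool.Agent.H75.UL

private theorem K1_last {L V : Type*} [Field L] [AddCommGroup V] [Module L V]
    (f : Module.End L V) (v : V) (hv : v ≠ 0) (k : ℕ) (hk : (f ^ k) v = 0) :
    ∃ j, (f ^ j) v ≠ 0 ∧ f ((f ^ j) v) = 0 := by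
  classical
  have hex : ∃ k, (f ^ k) v = 0 := ⟨k, hk⟩
  have h0 : Nat.find hex ≠ 0 := by
    intro h
    have h1 := Nat.find_spec hex
    rw [h, pow_zero, Module.End.one_apply] at h1
    exact hv h1
  obtain ⟨j, hj⟩ := Nat.exists_eq_succ_of_ne_zero h0
  refine ⟨j, Nat.find_min hex (by omega), ?_⟩
  have h1 := Nat.find_spec hex
  rw [hj, Nat.succ_eq_add_one, pow_succ', Module.End.mul_apply] at h1
  exact h1

private theorem K1_mul {L V : Type*} [Field L] [AddCommGroup V] [Module L V]
    (A B : Module.End L V) (hAB : A * B = B * A) (μ ν ξ : L) (v : V) (hv : v ≠ 0)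
    (h1 : ∃ k : ℕ, ((A - μ • (1 : Module.End L V)) ^ k) v = 0)
    (h2 : ∃ k : ℕ, ((B - ν • (1 : Module.End L V)) ^ k) v = 0)
    (h3 : ∃ k : ℕ, ((A * B - ξ • (1 : Module.End L V)) ^ k) v = 0) : ξ = μ * ν := by
  obtain ⟨k, hk⟩ := h1
  obtain ⟨l, hl⟩ := h2
  obtain ⟨m, hm⟩ := h3
  have hcAB : Commute A B := hAB
  have hs : ∀ (X : Module.End L V) (c : L), Commute X (c • (1 : Module.End L V)) :=
    fun X c => (Commute.one_right X).smul_right c
  have hs' : ∀ (X : Module.End L V) (c : L), Commute (c • (1 : Module.End L V)) X :=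
    fun X c => (hs X c).symm
  set P := A - μ • (1 : Module.End L V) with hP
  set Q := B - ν • (1 : Module.End L V) with hQ
  set R := A * B - ξ • (1 : Module.End L V) with hR
  have hPQ : Commute P Q := (hcAB.sub_right (hs _ _)).sub_left ((hs' _ _).sub_right (hs' _ _))
  have hAP : Commute A R := ((Commute.refl A).mul_right hcAB).sub_right (hs _ _)
  have hBR : Commute B R := (hcAB.symm.mul_right (Commute.refl B)).sub_right (hs _ _)
  have hPR : Commute P R := hAP.sub_left (hs' _ _)
  have hQR : Commute Q R := hBR.sub_left (hs' _ _)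
  obtain ⟨i, hi1, hi2⟩ := K1_last P v hv k hk
  have hl' : (Q ^ l) ((P ^ i) v) = 0 := by
    rw [← Module.End.mul_apply, ← (hPQ.pow_pow i l).eq, Module.End.mul_apply, hl, map_zero]
  obtain ⟨j, hj1, hj2⟩ := K1_last Q _ hi1 l hl'
  set w := (Q ^ j) ((P ^ i) v) with hw
  have hPw : P w = 0 := by
    rw [hw, ← Module.End.mul_apply, (hPQ.pow_right j).eq, Module.End.mul_apply, hi2, map_zero]
  have hRw : (R ^ m) w = 0 := by
    rw [hw, ← Module.End.mul_apply, ← (hQR.pow_pow j m).eq, Module.End.mul_apply,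
      ← Module.End.mul_apply (R ^ m), ← (hPR.pow_pow i m).eq, Module.End.mul_apply, hm, map_zero,
      map_zero]
  have hAw : A w = μ • w := by
    have := hPw
    rw [hP, LinearMap.sub_apply, LinearMap.smul_apply, Module.End.one_apply, sub_eq_zero] at this
    exact this
  have hBw : B w = ν • w := by
    have := hj2
    rw [hQ, LinearMap.sub_apply, LinearMap.smul_apply, Module.End.one_apply, sub_eq_zero] at this
    exact this
  have hRw1 : ∀ c : L, R (c • w) = ((μ * ν - ξ) * c) • w := by
    intro c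
    rw [hR, LinearMap.sub_apply, LinearMap.smul_apply, Module.End.one_apply, Module.End.mul_apply,
      map_smul, hBw, map_smul, map_smul, hAw]
    module
  have hRm : ∀ m : ℕ, (R ^ m) w = (μ * ν - ξ) ^ m • w := by
    intro m
    induction m with
    | zero => simp
    | succ m ih => rw [pow_succ', Module.End.mul_apply, ih, hRw1, pow_succ']
  rw [hRm] at hRw
  have h4 := (smul_eq_zero.mp hRw).resolve_right hj1
  have h6 : μ * ν - ξ = 0 := by
    by_contra hne
    exact pow_ne_zero m hne h4
  exact (sub_eq_zero.mp h6).symm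

theorem torus_trick {k L : Type*} [Field k] [Infinite k] [Field L] [IsAlgClosed L] (V : Type v)
    [AddCommGroup V] [Module L V] [FiniteDimensional L V] (a : k → Module.End L V)
    (τ : k → Module.End L V) (h0 : a 0 = 1) (hadd : ∀ s t, a (s + t) = a s * a t)
    (hτ : ∀ s, s ≠ 0 → Function.Injective (τ s))
    (hc : ∀ s t, s ≠ 0 → τ s * a t = a (s ^ 2 * t) * τ s) (t : k) : IsNilpotent (a t - 1) := by
  classical
  have hcomm : ∀ s t, a s * a t = a t * a s := fun s t => by rw [← hadd, add_comm, hadd]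
  set G : (k → L) → Submodule L V := fun χ => ⨅ i, (a i).maxGenEigenspace (χ i) with hG
  have hmem : ∀ (χ : k → L) (w : V), w ∈ G χ ↔
      ∀ j, ∃ m : ℕ, ((a j - χ j • (1 : Module.End L V)) ^ m) w = 0 := fun χ w =>
    Module.End.mem_iInf_maxGenEigenspace_iff a χ w
  have htop : ⨆ χ, G χ = ⊤ :=
    Module.End.iSup_iInf_maxGenEigenspace_eq_top_of_iSup_maxGenEigenspace_eq_top_of_commute a
      (fun i j _ => hcomm i j) (fun i => Module.End.iSup_maxGenEigenspace_eq_top (a i))
  have hind : iSupIndep G := Module.End.independent_iInf_maxGenEigenspace_of_forall_mapsTo a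
    (fun i j φ => Module.End.mapsTo_maxGenEigenspace_of_comm (hcomm j i) φ)
  have hfin : {χ | G χ ≠ ⊥}.Finite := WellFoundedGT.finite_ne_bot_of_iSupIndep hind
  -- characters
  have hchar : ∀ χ, G χ ≠ ⊥ → (∀ s t, χ (s + t) = χ s * χ t) ∧ χ 0 = 1 := by
    intro χ hχ
    obtain ⟨w, hw, hw0⟩ := Submodule.exists_mem_ne_zero_of_ne_bot hχ
    rw [hmem] at hw
    have h1 : ∀ s t, χ (s + t) = χ s * χ t := by
      intro s t
      refine K1_mul (a s) (a t) (hcomm s t) _ _ _ w hw0 (hw s) (hw t) ?_
      rw [← hadd]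
      exact hw (s + t)
    refine ⟨h1, ?_⟩
    obtain ⟨m, hm⟩ := hw 0
    rw [h0] at hm
    have h2 : ∀ m : ℕ, (((1 : Module.End L V) - χ 0 • (1 : Module.End L V)) ^ m) w
        = (1 - χ 0) ^ m • w := by
      intro m
      induction m with
      | zero => simp
      | succ m ih =>
        rw [pow_succ', Module.End.mul_apply, ih, LinearMap.sub_apply, LinearMap.smul_apply,
          Module.End.one_apply, pow_succ']
        module
    rw [h2] at hm
    have h3 := (smul_eq_zero.mp hm).resolve_right hw0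
    have h4 : 1 - χ 0 = 0 := by
      by_contra hne
      exact pow_ne_zero m hne h3
    exact (sub_eq_zero.mp h4).symm
  -- the torus permutes the characters
  have hperm : ∀ χ, G χ ≠ ⊥ → ∀ s : k, s ≠ 0 → G (fun u => χ (s⁻¹ ^ 2 * u)) ≠ ⊥ := by
    intro χ hχ s hs
    obtain ⟨w, hw, hw0⟩ := Submodule.exists_mem_ne_zero_of_ne_bot hχ
    rw [hmem] at hw
    refine (Submodule.ne_bot_iff _).mpr ⟨τ s w, ?_, ?_⟩
    · rw [hmem]
      intro u
      obtain ⟨m, hm⟩ := hw (s⁻¹ ^ 2 * u)
      refine ⟨m, ?_⟩
      have h1 : s ^ 2 * (s⁻¹ ^ 2 * u) = u := by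
        field_simp
      have h2 := hc s (s⁻¹ ^ 2 * u) hs
      rw [h1] at h2
      have h3 : SemiconjBy (τ s) (a (s⁻¹ ^ 2 * u) - χ (s⁻¹ ^ 2 * u) • (1 : Module.End L V))
          (a u - χ (s⁻¹ ^ 2 * u) • (1 : Module.End L V)) := by
        refine SemiconjBy.sub_right h2 ?_
        unfold SemiconjBy
        rw [mul_smul_comm, smul_mul_assoc, mul_one, one_mul]
      have h4 := (h3.pow_right m).eq
      have h5 := congrArg (fun f : Module.End L V => f w) h4
      simp only [Module.End.mul_apply] at h5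
      rw [hm, map_zero] at h5
      exact h5.symm
    · intro h
      exact hw0 (hτ s hs (by rw [h, map_zero]))
  have hone : ∀ χ, G χ ≠ ⊥ → χ = fun _ => 1 := by
    intro χ hχ
    obtain ⟨hm, hz⟩ := hchar χ hχ
    have : Finite {χ | G χ ≠ ⊥} := hfin
    have : Infinite {s : k // s ≠ 0} := by
      have h1 : ({0}ᶜ : Set k).Infinite := (Set.finite_singleton (0 : k)).infinite_compl
      exact h1.to_subtype
    obtain ⟨y, hy⟩ := Finite.exists_infinite_fiber
      (fun s : {s : k // s ≠ 0} =>
        (⟨fun u => χ (s.1⁻¹ ^ 2 * u), hperm χ hχ s.1 s.2⟩ : {χ | G χ ≠ ⊥}))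
    have hy' := Set.infinite_coe_iff.mp hy
    obtain ⟨s, hs⟩ := hy'.nonempty
    obtain ⟨s', hs', hne⟩ := hy'.exists_notMem_finset
      ({s, ⟨-s.1, neg_ne_zero.mpr s.2⟩} : Finset {s : k // s ≠ 0})
    have hss : s.1⁻¹ ^ 2 - s'.1⁻¹ ^ 2 ≠ 0 := by
      intro h
      have h1 := sub_eq_zero.mp h
      rcases sq_eq_sq_iff_eq_or_eq_neg.mp h1 with h2 | h2
      · apply hne
        have : s' = s := Subtype.ext (inv_injective h2.symm)
        rw [this]
        exact Finset.mem_insert_self _ _
      · apply hne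
        have : s' = ⟨-s.1, neg_ne_zero.mpr s.2⟩ := by
          apply Subtype.ext
          apply inv_injective
          change s'.1⁻¹ = (-s.1)⁻¹
          rw [inv_neg, h2, neg_neg]
        rw [this]
        exact Finset.mem_insert_of_mem (Finset.mem_singleton_self _)
    have heq : ∀ u, χ (s.1⁻¹ ^ 2 * u) = χ (s'.1⁻¹ ^ 2 * u) := by
      intro u
      have h1 : (fun u => χ (s.1⁻¹ ^ 2 * u)) = fun u => χ (s'.1⁻¹ ^ 2 * u) := by
        have e1 := congrArg Subtype.val (Set.mem_singleton_iff.mp (Set.mem_preimage.mp hs))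
        have e2 := congrArg Subtype.val (Set.mem_singleton_iff.mp (Set.mem_preimage.mp hs'))
        exact e1.trans e2.symm
      exact congrFun h1 u
    have hnz : ∀ u, χ u ≠ 0 := by
      intro u h
      have h1 := hm u (-u)
      rw [add_neg_cancel, hz, h, zero_mul] at h1
      exact one_ne_zero h1
    funext w
    set c := s.1⁻¹ ^ 2 - s'.1⁻¹ ^ 2 with hcdef
    have h1 := heq (c⁻¹ * w)
    have h2 : s.1⁻¹ ^ 2 * (c⁻¹ * w) = s'.1⁻¹ ^ 2 * (c⁻¹ * w) + w := by
      have h3 : s.1⁻¹ ^ 2 = s'.1⁻¹ ^ 2 + c := by rw [hcdef]; ring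
      rw [h3, add_mul, ← mul_assoc c, mul_inv_cancel₀ hss, one_mul]
    rw [h2, hm] at h1
    have h3 := mul_left_cancel₀ (hnz _) (h1.trans (mul_one _).symm)
    exact h3
  have hG1 : G (fun _ => 1) = ⊤ := by
    rw [eq_top_iff, ← htop]
    refine iSup_le fun χ => ?_
    by_cases h : G χ = ⊥
    · rw [h]
      exact bot_le
    · rw [hone χ h]
  have h1 : (a t).maxGenEigenspace 1 = ⊤ := by
    rw [eq_top_iff, ← hG1]
    exact iInf_le (fun i => (a i).maxGenEigenspace (1 : L)) t
  rw [Module.End.maxGenEigenspace_eq_genEigenspace_finrank, Module.End.genEigenspace_nat] at h1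
  refine ⟨Module.finrank L V, ?_⟩
  rw [LinearMap.ker_eq_top] at h1
  rw [one_smul] at h1
  exact h1

theorem root_unipotent {n : ℕ} {C : SLC n} {k : Type*} [Field k] [Infinite k] {H : Type*} [Group H]
    (S : StSys C k H) {L V : Type*} [Field L] [IsAlgClosed L] [AddCommGroup V] [Module L V]
    [FiniteDimensional L V] (ρ : H →* Module.End L V) (β : C.Root) (t : k) :
    IsNilpotent (ρ (S.x β t) - 1) := by
  refine torus_trick V (fun t => ρ (S.x β t)) (fun s => ρ (hh S.x β s)) ?_ ?_ ?_ ?_ t
  · rw [S.x_zero, map_one]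
  · intro s t
    rw [S.map_add, map_mul]
  · intro s _ v w h
    have h1 : ∀ v : V, ρ (hh S.x β s)⁻¹ (ρ (hh S.x β s) v) = v := by
      intro v
      rw [← Module.End.mul_apply, ← map_mul, inv_mul_cancel, map_one, Module.End.one_apply]
    rw [← h1 v, ← h1 w]
    exact congrArg _ h
  · intro s t hs
    rw [← map_mul, ← map_mul]
    congr 1
    have h1 := S.h_conj β β s t hs
    rw [β.norm] at h1
    rw [← zpow_natCast, ← mul_inv_eq_iff_eq_mul]
    exact h1

end Pool.Agent.H75.UL
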