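import Mathlib

/-!
# Project UL: Nullstellensatz and reduction to finite fields
-/

set_option autoImplicit false

open MvPolynomial

universe u

namespace Pool.Agent.H75.UL

/-- Weak Nullstellensatz for a family of polynomials, with a finite certificate. -/
theorem exists_certificate {L : Type*} [Field L] [IsAlgClosed L] {V : Type*} [Finite V]
    {ι : Type*} (E : ι → MvPolynomial V L)
    (hE : ∀ y : V → L, ∃ i, eval y (E i) ≠ 0) :
    ∃ (s : Finset ι) (g : ι → MvPolynomial V L), ∑ i ∈ s, g i * E i = 1 := by
  classical
  have htop : Ideal.span (Set.range E) = ⊤ := by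
    by_contra hne
    obtain ⟨M, hM, hle⟩ := Ideal.exists_le_maximal _ hne
    obtain ⟨y, hy⟩ := (MvPolynomial.isMaximal_iff_eq_vanishingIdeal_singleton (K := L)).mp hM
    obtain ⟨i, hi⟩ := hE y
    apply hi
    have h1 : E i ∈ M := hle (Ideal.subset_span ⟨i, rfl⟩)
    rw [hy, MvPolynomial.mem_vanishingIdeal_singleton_iff] at h1
    simpa [MvPolynomial.aeval_eq_eval] using h1
  have h1 : (1 : MvPolynomial V L) ∈ Ideal.span (Set.range E) := by
    rw [htop]; trivial
  rw [Ideal.span, Finsupp.mem_span_range_iff_exists_finsupp] at h1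
  obtain ⟨c, hc⟩ := h1
  refine ⟨c.support, c, ?_⟩
  rw [← hc, Finsupp.sum]
  rfl

theorem isJacobsonRing_int : IsJacobsonRing ℤ := by
  rw [isJacobsonRing_iff_prime_eq]
  intro P hP
  by_cases h0 : P = ⊥
  · subst h0
    rw [eq_bot_iff]
    intro x hx
    rw [Ideal.mem_jacobson_bot] at hx
    rw [Ideal.mem_bot]
    by_contra hne
    have h1 := hx x
    rw [Int.isUnit_iff] at h1
    have h2 : 0 < x * x := mul_self_pos.mpr hne
    omega
  · have : P.IsMaximal := hP.isMaximal h0
    exact Ideal.jacobson_eq_self_of_isMaximal

/-- A field that is a finitely generated `ℤ`-module is finite. -/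
theorem finite_of_module_finite_int (F : Type*) [Field F] [Module.Finite ℤ F] : Finite F := by
  have hint : Algebra.IsIntegral ℤ F := inferInstance
  obtain ⟨p, hp⟩ := CharP.exists F
  rcases CharP.char_is_prime_or_zero F p with hpr | h0
  · have : Fact p.Prime := ⟨hpr⟩
    let _ : Algebra (ZMod p) F := ZMod.algebra F p
    have h1 : Module.Finite (ZMod p) F := by
      obtain ⟨s, hs⟩ := (inferInstance : Module.Finite ℤ F)
      refine ⟨s, ?_⟩
      rw [eq_top_iff]
      intro x _
      have hx : x ∈ Submodule.span ℤ (s : Set F) := by rw [hs]; trivial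
      induction hx using Submodule.span_induction with
      | mem x h => exact Submodule.subset_span h
      | zero => exact Submodule.zero_mem _
      | add x y _ _ hx hy => exact Submodule.add_mem _ (hx trivial) (hy trivial)
      | smul a x _ hx =>
        have h2 : a • x = (a : ZMod p) • x := by
          rw [Algebra.smul_def, Algebra.smul_def, map_intCast]
          simp
        rw [h2]
        exact Submodule.smul_mem _ _ (hx trivial)
    exact Module.finite_of_finite (ZMod p)
  · exfalso
    subst h0
    have : CharZero F := CharP.charP_to_charZero F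
    have hinj : Function.Injective (algebraMap ℤ F) := by
      intro a b hab
      simpa using hab
    have h1 : IsField ℤ := isField_of_isIntegral_of_isField hinj (Field.toIsField F)
    obtain ⟨b, hb⟩ := h1.mul_inv_cancel (a := (2 : ℤ)) (by norm_num)
    omega

/-- A finitely generated subring of a field maps to a finite field. -/
theorem exists_finite_residue {L : Type u} [Field L] (S : Set L) (hS : S.Finite) :
    ∃ (R : Subring L), S ⊆ R ∧ ∃ (F : Type u) (_ : Field F) (_ : Finite F),
      Nonempty (R →+* F) := by
  classical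
  set R : Subalgebra ℤ L := Algebra.adjoin ℤ S with hR
  have hft : Algebra.FiniteType ℤ R :=
    Subalgebra.fg_iff_finiteType _ |>.mp ⟨hS.toFinset, by rw [Set.Finite.coe_toFinset]⟩
  obtain ⟨M, hM⟩ := Ideal.exists_maximal R
  let _ : Field (R ⧸ M) := Ideal.Quotient.field M
  have h1 : Algebra.FiniteType ℤ (R ⧸ M) := inferInstance
  have := isJacobsonRing_int
  have h2 : Module.Finite ℤ (R ⧸ M) := finite_of_finite_type_of_isJacobsonRing ℤ (R ⧸ M)
  exact ⟨R.toSubring, Algebra.subset_adjoin, R ⧸ M, inferInstance,
    finite_of_module_finite_int (R ⧸ M), ⟨(Ideal.Quotient.mk M : R →+* R ⧸ M)⟩⟩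

end Pool.Agent.H75.UL
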