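import Pool.Agent.H86.UL.P2D

/-!
# Project UL, module P2b: orthogonal simple roots go to orthogonal simple roots, and the bracket of
adjacent ones

`hπ`: `f_ij = 0` unless `j = π i`; so `ld (Ψ (x_i(t))) = f_(i, π i)(t) • E_(π i)`.
(1) `comm_lead` (with `m = k = 1`, `lead_U`, `Fil_ld`): for `g = Ψ (x_i(s))`, `h = Ψ (x_j(t))` the
commutator `c = g h g⁻¹ h⁻¹` satisfies
`Fil 3 (c - 1 - f_i(s) f_j(t) (E_(π i) E_(π j) - E_(π j) E_(π i)))`.
(2) If `A (π i) (π j) = -1`: `γ = simple (π i) + simple (π j)` is a root (`exists_add`) of height 2 and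
`E_(π i) E_(π j) - E_(π j) E_(π i) = ± E_γ` (`E_comm_add`), whose entry at `(inl l, inr (-γ))` is
`∓ γ_l`; for `l = π i` this is `∓ 1` (`γ (π i) = 1`), and `hti (inl l) = 0 < hti (inr (-γ)) + 3 = 1`,
so the entry of `c - 1` there is exactly `∓ f_i(s) f_j(t) `. This is `comm_entry`.
(3) If `A i j = 0`, `i ≠ j`, then `x_i(s)`, `x_j(t)` commute (`S.comm`), so `c = 1`, so by (2) (with
`s`, `t` such that the `f`'s are nonzero) `A (π i) (π j) = -1` is impossible: `A (π i) (π j) = 0`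
(`off`). The map `(i, j) ↦ (π i, π j)` is an injection of the finite set
`{(i, j) | i ≠ j, A i j = 0}` into itself, hence a bijection, so
`A (π i) (π j) = 0 ↔ A i j = 0` for `i ≠ j`; all other off diagonal entries are `-1`: `cartan_perm`.
(4) `field_adj`: if `A i j = -1`, with `γ' = simple i + simple j`:
`[x_i(t), x_j(1)] = x_γ'(eps * t) = [x_i(1), x_j(t)]` (`comm_add`), apply `Ψ` and (2) (which applies
as `A (π i) (π j) = -1` by (3)): `f_i(t) f_j(1) = f_i(1) f_j(t)`.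
-/

set_option autoImplicit false
open Matrix

namespace Pool.Agent.H75.UL
namespace SLC
variable {n : ℕ} (C : SLC n)

private theorem P2b_eps_ne (v w : Fin n → ℤ) (F : Type*) [Field F] : ((C.eps v w : ℤ) : F) ≠ 0 := by
  intro h
  have h1 := C.eps_sq v w
  have h2 : ((C.eps v w : ℤ) : F) * ((C.eps v w : ℤ) : F) = 1 := by
    rw [← Int.cast_mul, h1, Int.cast_one]
  rw [h, mul_zero] at h2
  exact zero_ne_one h2

private theorem P2b_mem {k : Type*} [Field k] {H : Type*} [Group H] (S : StSys C k H) (i : Fin n)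
    (t : k) : S.x (C.simple i) t ∈ S.U 1 := by
  apply Subgroup.subset_closure
  exact ⟨C.simple i, t, by rw [C.ht_simple], rfl⟩

private theorem P2b_ld {k : Type*} [Field k]
    {H : Type*} [Group H] (S : StSys C k H) {F : Type*} [Field F]
    (Ψ : H →* GL C.Idx F) (π : Equiv.Perm (Fin n))
    (hπ : ∀ i j, (∃ t, ff S Ψ i j t ≠ 0) ↔ j = π i) (i : Fin n) (s : k) :
    C.ld (Ψ (S.x (C.simple i) s) : Matrix C.Idx C.Idx F) =
      ff S Ψ i (π i) s • (C.E (C.simple (π i))).map (Int.cast : ℤ → F) := by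
  unfold ld
  rw [Finset.sum_eq_single (π i)]
  · rfl
  · intro j _ hj
    have h0 : ff S Ψ i j s = 0 := by
      by_contra hne
      exact hj ((hπ i j).1 ⟨s, hne⟩)
    have h1 : C.xi j (Ψ (S.x (C.simple i) s) : Matrix C.Idx C.Idx F) = 0 := h0
    rw [h1, zero_smul]
  · intro h
    exact absurd (Finset.mem_univ _) h

private theorem P2b_bracket (α β γ : C.Root) (h : γ.1 = α.1 + β.1) (F : Type*) [Field F] :
    (C.E α).map (Int.cast : ℤ → F) * (C.E β).map (Int.cast : ℤ → F) -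
      (C.E β).map (Int.cast : ℤ → F) * (C.E α).map (Int.cast : ℤ → F) =
      ((C.eps α.1 β.1 : ℤ) : F) • (C.E γ).map (Int.cast : ℤ → F) := by
  have h1 := congrArg (fun M : Matrix C.Idx C.Idx ℤ => M.map (Int.castRingHom F))
    (C.E_comm_add α β γ h)
  ext a b
  have h2 := congrFun (congrFun h1 a) b
  simp only [Matrix.map_apply, Matrix.sub_apply, Matrix.smul_apply, map_sub, Matrix.mul_apply,
    map_sum, map_mul, smul_eq_mul, eq_intCast] at h2 ⊢
  exact h2

theorem comm_entry {k : Type*} [Field k]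
    {H : Type*} [Group H] (S : StSys C k H) {F : Type*} [Field F]
    (Ψ : H →* GL C.Idx F) (hU : ∀ u ∈ S.U 1, Ψ u ∈ (C.adS F).U 1) (π : Equiv.Perm (Fin n))
    (hπ : ∀ i j, (∃ t, ff S Ψ i j t ≠ 0) ↔ j = π i) (i j : Fin n) (hij : C.A (π i) (π j) = -1)
    (γ : C.Root) (hγ : γ.1 = (C.simple (π i)).1 + (C.simple (π j)).1) (s t : k) :
    ((Ψ (S.x (C.simple i) s * S.x (C.simple j) t * (S.x (C.simple i) s)⁻¹ *
      (S.x (C.simple j) t)⁻¹) : GL C.Idx F) : Matrix C.Idx C.Idx F) (Sum.inl (π i))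
        (Sum.inr (-γ)) =
      - (C.eps (C.simple (π i)).1 (C.simple (π j)).1 * ff S Ψ i (π i) s * ff S Ψ j (π j) t) := by
  have hg := hU _ (P2b_mem C S i s)
  have hh := hU _ (P2b_mem C S j t)
  set g := Ψ (S.x (C.simple i) s) with hgdef
  set h := Ψ (S.x (C.simple j) t) with hhdef
  have hc := C.Fil_comm_lead g h 1 1 le_rfl le_rfl (C.ld (g : Matrix C.Idx C.Idx F))
    (C.ld (h : Matrix C.Idx C.Idx F)) (C.Fil_ld _) (C.Fil_ld _) (C.lead_U g hg) (C.lead_U h hh)
  have hΨ : Ψ (S.x (C.simple i) s * S.x (C.simple j) t * (S.x (C.simple i) s)⁻¹ *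
      (S.x (C.simple j) t)⁻¹) = g * h * g⁻¹ * h⁻¹ := by
    rw [map_mul, map_mul, map_mul, map_inv, map_inv]
  rw [hΨ]
  have hne : π i ≠ π j := by
    intro he
    rw [he, C.diag] at hij
    omega
  have hγht : ht γ.1 = 2 := by
    rw [hγ]
    have h1 := C.ht_simple (π i)
    have h2 := C.ht_simple (π j)
    unfold ht at *
    simp only [Pi.add_apply, Finset.sum_add_distrib]
    omega
  have hneg : ht (-γ).1 = -2 := by
    rw [Root.neg_val]
    unfold ht at *
    simp only [Pi.neg_apply, Finset.sum_neg_distrib]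
    omega
  have h0 := hc (Sum.inl (π i)) (Sum.inr (-γ)) (by
    simp only [hti, Sum.elim_inl, Sum.elim_inr]
    rw [hneg]
    norm_num)
  rw [Matrix.sub_apply, Matrix.sub_apply, Matrix.one_apply_ne (by simp), sub_zero,
    sub_eq_zero] at h0
  rw [h0, hgdef, hhdef, P2b_ld C S Ψ π hπ i s, P2b_ld C S Ψ π hπ j t]
  have hbr := P2b_bracket C (C.simple (π i)) (C.simple (π j)) γ hγ F
  have e1 : (ff S Ψ i (π i) s • (C.E (C.simple (π i))).map (Int.cast : ℤ → F)) *
      (ff S Ψ j (π j) t • (C.E (C.simple (π j))).map (Int.cast : ℤ → F)) -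
      (ff S Ψ j (π j) t • (C.E (C.simple (π j))).map (Int.cast : ℤ → F)) *
      (ff S Ψ i (π i) s • (C.E (C.simple (π i))).map (Int.cast : ℤ → F)) =
      (ff S Ψ i (π i) s * ff S Ψ j (π j) t) •
        (((C.eps (C.simple (π i)).1 (C.simple (π j)).1 : ℤ) : F) •
          (C.E γ).map (Int.cast : ℤ → F)) := by
    rw [← hbr]
    simp only [smul_mul_assoc, mul_smul_comm, smul_smul, smul_sub]
    rw [mul_comm (ff S Ψ j (π j) t) (ff S Ψ i (π i) s)]
  rw [e1]
  have hE : (C.E γ) (Sum.inl (π i)) (Sum.inr (-γ)) = -1 := by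
    have : (C.E γ) (Sum.inl (π i)) (Sum.inr (-γ)) = if (-γ).1 = -γ.1 then - γ.1 (π i) else 0 := rfl
    rw [this, if_pos (Root.neg_val C γ), hγ]
    simp only [Pi.add_apply, simple_val, Pi.single_eq_same]
    rw [Pi.single_eq_of_ne hne]
    norm_num
  simp only [Matrix.smul_apply, Matrix.map_apply, hE, smul_eq_mul]
  push_cast
  ring

private theorem P2b_ip (i j : Fin n) : C.ip (C.simple i).1 (C.simple j).1 = C.A i j :=
  C.ip_single i j

private theorem P2b_zero {k : Type*} [Field k]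
    {H : Type*} [Group H] (S : StSys C k H) {F : Type*} [Field F]
    (Ψ : H →* GL C.Idx F) (hU : ∀ u ∈ S.U 1, Ψ u ∈ (C.adS F).U 1) (π : Equiv.Perm (Fin n))
    (hπ : ∀ i j, (∃ t, ff S Ψ i j t ≠ 0) ↔ j = π i) (i j : Fin n) (hne : i ≠ j)
    (h0 : C.A i j = 0) : C.A (π i) (π j) = 0 := by
  rcases C.off (π i) (π j) (fun h => hne (π.injective h)) with h | h
  · exact h
  exfalso
  obtain ⟨s, hs⟩ := (hπ i (π i)).2 rfl
  obtain ⟨t, ht'⟩ := (hπ j (π j)).2 rfl
  obtain ⟨γ, hγ⟩ := C.exists_add (C.simple (π i)) (C.simple (π j)) (by rw [P2b_ip]; exact h)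
  have h1 := comm_entry C S Ψ hU π hπ i j h γ hγ s t
  have h2 : S.x (C.simple i) s * S.x (C.simple j) t * (S.x (C.simple i) s)⁻¹ *
      (S.x (C.simple j) t)⁻¹ = 1 := by
    rw [S.comm (C.simple i) (C.simple j) s t (by rw [P2b_ip, h0])]
    group
  rw [h2, map_one, Units.val_one, Matrix.one_apply_ne (by simp)] at h1
  have h3 := P2b_eps_ne C (C.simple (π i)).1 (C.simple (π j)).1 F
  have h4 := mul_ne_zero (mul_ne_zero h3 hs) ht'
  exact h4 (neg_eq_zero.1 h1.symm)

theorem cartan_perm {k : Type*} [Field k]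
    {H : Type*} [Group H] (S : StSys C k H) {F : Type*} [Field F]
    (Ψ : H →* GL C.Idx F) (hU : ∀ u ∈ S.U 1, Ψ u ∈ (C.adS F).U 1) (π : Equiv.Perm (Fin n))
    (hπ : ∀ i j, (∃ t, ff S Ψ i j t ≠ 0) ↔ j = π i) (i j : Fin n) :
    C.A (π i) (π j) = C.A i j := by
  by_cases hij : i = j
  · rw [hij, C.diag, C.diag]
  rcases C.off i j hij with h | h
  · rw [h]
    exact P2b_zero C S Ψ hU π hπ i j hij h
  · rw [h]
    rcases C.off (π i) (π j) (fun h' => hij (π.injective h')) with h' | h'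
    swap
    · exact h'
    exfalso
    set T : Finset (Fin n × Fin n) :=
      Finset.univ.filter (fun p => p.1 ≠ p.2 ∧ C.A p.1 p.2 = 0) with hT
    have hsub : T.map (π.prodCongr π).toEmbedding ⊆ T := by
      intro p hp
      obtain ⟨q, hq, rfl⟩ := Finset.mem_map.1 hp
      obtain ⟨-, hq1, hq2⟩ := Finset.mem_filter.1 hq
      refine Finset.mem_filter.2 ⟨Finset.mem_univ _, ?_, ?_⟩
      · intro he
        exact hq1 (π.injective he)
      · exact P2b_zero C S Ψ hU π hπ q.1 q.2 hq1 hq2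
    have heq : T.map (π.prodCongr π).toEmbedding = T :=
      Finset.eq_of_subset_of_card_le hsub (by rw [Finset.card_map])
    have hmem : (π i, π j) ∈ T :=
      Finset.mem_filter.2 ⟨Finset.mem_univ _, fun he => hij (π.injective he), h'⟩
    rw [← heq] at hmem
    obtain ⟨q, hq, hqe⟩ := Finset.mem_map.1 hmem
    obtain ⟨-, -, hq2⟩ := Finset.mem_filter.1 hq
    have hq1' : π q.1 = π i := congrArg Prod.fst hqe
    have hq2' : π q.2 = π j := congrArg Prod.snd hqe
    rw [π.injective hq1', π.injective hq2', h] at hq2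
    omega

theorem field_adj {k : Type*} [Field k]
    {H : Type*} [Group H] (S : StSys C k H) {F : Type*} [Field F]
    (Ψ : H →* GL C.Idx F) (hU : ∀ u ∈ S.U 1, Ψ u ∈ (C.adS F).U 1) (π : Equiv.Perm (Fin n))
    (hπ : ∀ i j, (∃ t, ff S Ψ i j t ≠ 0) ↔ j = π i) (i j : Fin n) (hij : C.A i j = -1) (t : k) :
    ff S Ψ i (π i) t * ff S Ψ j (π j) 1 = ff S Ψ i (π i) 1 * ff S Ψ j (π j) t := by
  have hπij : C.A (π i) (π j) = -1 := by
    rw [cartan_perm C S Ψ hU π hπ i j, hij]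
  obtain ⟨γ, hγ⟩ := C.exists_add (C.simple (π i)) (C.simple (π j)) (by rw [P2b_ip]; exact hπij)
  obtain ⟨γ', hγ'⟩ := C.exists_add (C.simple i) (C.simple j) (by rw [P2b_ip]; exact hij)
  have h1 := comm_entry C S Ψ hU π hπ i j hπij γ hγ t 1
  have h2 := comm_entry C S Ψ hU π hπ i j hπij γ hγ 1 t
  rw [S.comm_add _ _ γ' _ _ hγ'] at h1 h2
  rw [mul_one] at h1
  rw [mul_one] at h2
  rw [h1] at h2
  have h3 := P2b_eps_ne C (C.simple (π i)).1 (C.simple (π j)).1 F
  have h4 := neg_injective h2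
  rw [mul_assoc, mul_assoc] at h4
  exact mul_left_cancel₀ h3 h4

end SLC
end Pool.Agent.H75.UL
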