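import Pool.Agent.H86.UL.P2a
import Pool.Agent.H86.UL.P2b

/-!
# Project UL, module P2: `coords`

Proof. `π` from `exists_perm` (P2a). `A (π i) (π j) = A i j` is `cartan_perm` (P2b).
Write `f_i(t) = ff S Ψ i (π i) t`.
(1) Let `i : Fin n`, `j ≠ i` with `A i j = -1` (`exists_adjacent`). For `s ≠ 0` the element
`h = hh S.x (simple j) s ∈ S.T` satisfies `h x_i(t) h⁻¹ = x_i(s ^ (-1) * t)` (`h_conj`, `ip_single`),
so `ff_conj` gives `f_i(s⁻¹ t) = χ(s) f_i(t)` for all `t`, with `χ(s) = chi (Ψ h) (simple (π i))`.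
Some `f_i(t₀) ≠ 0` (`hπ`), `t₀ ≠ 0` (`f_i(0) = 0` by additivity); with `s⁻¹ = t₀`, `t = 1` one gets
`f_i(1) ≠ 0`. Then `χ(s) = f_i(s⁻¹) / f_i(1)`, so `f_i(s t) f_i(1) = f_i(s) f_i(t)` for all `s, t`
(`s = 0` trivial). With `ff_add`: `φ_i(t) = f_i(t) / f_i(1)` is a ring homomorphism `k →+* F`.
(2) `φ_i = φ_j` for adjacent `i, j` by `field_adj`, hence for all `i, j` by `C.conn` (the set of `i`
with `φ_i = φ_i₀`, where `i₀ = ⟨0, _⟩`, is nonempty and closed under adjacency). `φ := φ_i₀`,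
`c i := f_i(1)`.
(3) `xi` formula: `j ≠ π i`: `hπ`; `j = π i`: definition.
(4) `chi` formula: `ff_conj` with `τ = S.tor v t` (`tor_mem`, `tor_conj`), at `1`:
`f_i(t ^ ip v e_i) = chi (Ψ τ) (simple (π i)) * f_i(1)`, and `f_i(t ^ m) = f_i(1) φ(t) ^ m` for
integers `m` (`map_zpow₀`); `ip_comm`.
-/

set_option autoImplicit false
open Matrix

namespace Pool.Agent.H75.UL
namespace SLC
variable {n : ℕ} (C : SLC n)

/-- the homomorphism of fields attached to a simple root -/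
private theorem P2_mul {k : Type*} [Field k] {H : Type*} [Group H] (S : StSys C k H) {F : Type*} [Field F]
    (Ψ : H →* GL C.Idx F) (hΨ : ∀ β t, Ψ (S.x β t) ∈ C.Gad F)
    (hU : ∀ u ∈ S.U 1, Ψ u ∈ (C.adS F).U 1)
    (hT : ∀ h ∈ S.T, C.Fil 0 (Ψ h : Matrix C.Idx C.Idx F)) (hn : 2 ≤ n) (i j : Fin n)
    (hne : ∃ t, ff S Ψ i j t ≠ 0) :
    ff S Ψ i j 0 = 0 ∧ ff S Ψ i j 1 ≠ 0 ∧
      ∀ s t, ff S Ψ i j (s * t) * ff S Ψ i j 1 = ff S Ψ i j s * ff S Ψ i j t := by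
  have h0 : ff S Ψ i j 0 = 0 := by
    have h := ff_add C S Ψ hU i j 0 0
    rw [add_zero] at h
    exact left_eq_add.mp h
  obtain ⟨l, hl, hA⟩ := C.exists_adjacent hn i
  have hχ : ∀ s : k, s ≠ 0 → ∃ χ : F, ∀ t, ff S Ψ i j (s * t) = χ * ff S Ψ i j t := by
    intro s hs
    have hs' : s⁻¹ ≠ 0 := inv_ne_zero hs
    refine ⟨C.chi (Ψ (hh S.x (C.simple l) s⁻¹) : Matrix C.Idx C.Idx F) (C.simple j), fun t => ?_⟩
    have hmem : hh S.x (C.simple l) s⁻¹ ∈ S.T := Subgroup.subset_closure ⟨C.simple l, s⁻¹, hs', rfl⟩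
    have hconj := S.h_conj (C.simple l) (C.simple i) s⁻¹ t hs'
    have hip : C.ip (C.simple l).1 (C.simple i).1 = -1 := by
      rw [simple_val, simple_val, ip_single, C.symm, hA]
    rw [hip, _root_.zpow_neg_one, inv_inv] at hconj
    exact ff_conj C S Ψ hΨ hU hT i j _ hmem s t hconj
  have h1 : ff S Ψ i j 1 ≠ 0 := by
    obtain ⟨t₀, ht₀⟩ := hne
    have ht : t₀ ≠ 0 := by
      rintro rfl
      exact ht₀ h0
    obtain ⟨χ, hχ1⟩ := hχ t₀ ht
    have h := hχ1 1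
    rw [mul_one] at h
    intro h2
    rw [h2, mul_zero] at h
    exact ht₀ h
  refine ⟨h0, h1, fun s t => ?_⟩
  by_cases hs : s = 0
  · rw [hs, zero_mul, h0, zero_mul, zero_mul]
  · obtain ⟨χ, hχ1⟩ := hχ s hs
    have h2 := hχ1 1
    rw [mul_one] at h2
    rw [hχ1 t, h2]
    ring

theorem coords' (hn : 2 ≤ n) (θ : C.Root) (hθ : C.IsHighest θ) {k : Type*} [Field k] [Infinite k]
    {H : Type*} [Group H] (S : StSys C k H) (F : Type*) [Field F]
    (Ψ : H →* GL C.Idx F) (hΨ : ∀ β t, Ψ (S.x β t) ∈ C.Gad F) (hne : Ψ (S.x θ 1) ≠ 1)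
    (hU : ∀ u ∈ S.U 1, Ψ u ∈ (C.adS F).U 1)
    (hT : ∀ h ∈ S.T, C.Fil 0 (Ψ h : Matrix C.Idx C.Idx F)) :
    ∃ (π : Equiv.Perm (Fin n)) (φ : k →+* F) (c : Fin n → F), (∀ i, c i ≠ 0) ∧
      (∀ i j, C.A (π i) (π j) = C.A i j) ∧
      (∀ i t j, C.xi j (Ψ (S.x (C.simple i) t) : Matrix C.Idx C.Idx F) =
        if j = π i then c i * φ t else 0) ∧
      ∀ v t, t ≠ 0 → ∀ i, C.chi (Ψ (S.tor v t) : Matrix C.Idx C.Idx F) (C.simple (π i)) =
        φ t ^ (C.ip (Pi.single i 1) v) := by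
  obtain ⟨π, hπ⟩ := exists_perm C θ hθ S Ψ hΨ hne hU hT
  have hP := fun i => P2_mul C S Ψ hΨ hU hT hn i (π i) ((hπ i (π i)).2 rfl)
  let φ : Fin n → (k →+* F) := fun i =>
    { toFun := fun t => ff S Ψ i (π i) t / ff S Ψ i (π i) 1
      map_one' := div_self (hP i).2.1
      map_zero' := by
        show ff S Ψ i (π i) 0 / ff S Ψ i (π i) 1 = 0
        rw [(hP i).1, zero_div]
      map_add' := fun s t => by
        show ff S Ψ i (π i) (s + t) / ff S Ψ i (π i) 1 = _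
        rw [ff_add C S Ψ hU, add_div]
      map_mul' := fun s t => by
        show ff S Ψ i (π i) (s * t) / ff S Ψ i (π i) 1 = _
        have h1 := (hP i).2.1
        have h2 := (hP i).2.2 s t
        rw [div_mul_div_comm, div_eq_div_iff h1 (mul_ne_zero h1 h1), ← h2]
        ring }
  have hφ : ∀ i t, φ i t = ff S Ψ i (π i) t / ff S Ψ i (π i) 1 := fun i t => rfl
  have hadj : ∀ i j, C.A i j = -1 → φ i = φ j := by
    intro i j hij
    ext t
    rw [hφ, hφ, div_eq_div_iff (hP i).2.1 (hP j).2.1]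
    rw [field_adj C S Ψ hU π hπ i j hij t]
    ring
  have hn0 : 0 < n := by omega
  have hall : ∀ i, φ i = φ ⟨0, hn0⟩ := by
    by_contra hcon
    push Not at hcon
    obtain ⟨i₁, hi₁⟩ := hcon
    classical
    obtain ⟨i, hi, j, hj, hA⟩ := C.conn (Finset.univ.filter fun i => φ i = φ ⟨0, hn0⟩)
      ⟨⟨0, hn0⟩, Finset.mem_filter.2 ⟨Finset.mem_univ _, rfl⟩⟩
      (fun h => by
        have h1 : i₁ ∈ Finset.univ.filter fun i => φ i = φ ⟨0, hn0⟩ := by
          rw [h]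
          exact Finset.mem_univ i₁
        exact hi₁ (Finset.mem_filter.1 h1).2)
    have hij : i ≠ j := by
      rintro rfl
      exact hj hi
    have hA1 : C.A i j = -1 := (C.off i j hij).resolve_left hA
    refine hj (Finset.mem_filter.2 ⟨Finset.mem_univ _, ?_⟩)
    rw [← hadj i j hA1]
    exact (Finset.mem_filter.1 hi).2
  have hval : ∀ i t, ff S Ψ i (π i) t = ff S Ψ i (π i) 1 * φ ⟨0, hn0⟩ t := by
    intro i t
    rw [← hall i, hφ, mul_div_cancel₀ _ (hP i).2.1]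
  refine ⟨π, φ ⟨0, hn0⟩, fun i => ff S Ψ i (π i) 1, fun i => (hP i).2.1,
    cartan_perm C S Ψ hU π hπ, fun i t j => ?_, fun v t ht i => ?_⟩
  · show ff S Ψ i j t = _
    split_ifs with h
    · rw [h]
      exact hval i t
    · by_contra h1
      exact h ((hπ i j).1 ⟨t, h1⟩)
  · have hconj := S.tor_conj v t ht (C.simple i) 1
    have h1 := ff_conj C S Ψ hΨ hU hT i (π i) _ (S.tor_mem v t ht) _ 1 hconj
    rw [mul_one] at h1
    have h2 := hval i (t ^ (C.ip v (C.simple i).1))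
    rw [h1, map_zpow₀, mul_comm] at h2
    have h3 := mul_left_cancel₀ (hP i).2.1 h2
    rw [h3, simple_val, C.ip_comm]

end SLC
end Pool.Agent.H75.UL
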