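import Pool.Agent.H75.UL.T4
import Pool.Agent.H75.UL.T5
import Pool.Agent.H75.UL.T7
import Pool.Agent.H75.UL.S8
import Pool.Agent.H75.UL.R3
import Pool.Agent.H75.UL.R5

/-!
# Project UL: definition used in the modules P2a, P2b, P2c
-/

set_option autoImplicit false
open Matrix

namespace Pool.Agent.H75.UL
namespace SLC
variable {n : ℕ} {C : SLC n}

/-- The coordinate at the simple root `j` of the image of `x_i(t)`. -/
noncomputable def ff {k : Type*} [Field k] {H : Type*} [Group H] (S : StSys C k H) {F : Type*} [Field F]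
    (Ψ : H →* GL C.Idx F) (i j : Fin n) (t : k) : F :=
  C.xi j (Ψ (S.x (C.simple i) t) : Matrix C.Idx C.Idx F)

end SLC
end Pool.Agent.H75.UL
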